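import Pool.Agent.Lib.MP_4a8162_co.TwDC

set_option autoImplicit false

namespace Pool.Agent.Lib.MP_4a8162_co

/-! ### ranks -/

private theorem tc_bdd (M : Matroid ℕ) (X : Set ℕ) (hX : X.Finite) :
    BddAbove {n : ℕ | ∃ I ⊆ X, M.Indep I ∧ I.ncard = n} := by
  refine ⟨X.ncard, ?_⟩
  rintro n ⟨I, hIX, _, rfl⟩
  exact Set.ncard_le_ncard hIX hX

private theorem tc_ge (M : Matroid ℕ) (X : Set ℕ) (hX : X.Finite) (I : Set ℕ) (hI : M.Indep I)
    (hIX : I ⊆ X) : I.ncard ≤ rks M X :=
  le_csSup (tc_bdd M X hX) ⟨I, hIX, hI, rfl⟩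

private theorem tc_le (M : Matroid ℕ) (X : Set ℕ) (k : ℕ)
    (h : ∀ I ⊆ X, M.Indep I → I.ncard ≤ k) : rks M X ≤ k := by
  refine csSup_le ⟨0, ∅, Set.empty_subset _, M.empty_indep, Set.ncard_empty _⟩ ?_
  rintro n ⟨J, hJX, hJ, rfl⟩
  exact h J hJX hJ

private theorem tc_mono (M : Matroid ℕ) (X Y : Finset ℕ) (h : X ⊆ Y) :
    rks M (X : Set ℕ) ≤ rks M (Y : Set ℕ) :=
  tc_le M X _ fun I hI hI' => tc_ge M Y Y.finite_toSet I hI' (hI.trans (by exact_mod_cast h))

private theorem tc_sub {M : Matroid ℕ} (hM : M.Finite) (X Y : Finset ℕ) :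
    rks M ((X ∩ Y : Finset ℕ) : Set ℕ) + rks M ((X ∪ Y : Finset ℕ) : Set ℕ) ≤
      rks M (X : Set ℕ) + rks M (Y : Set ℕ) := by
  have h := M.eRk_inter_add_eRk_union_le (X : Set ℕ) (Y : Set ℕ)
  rw [← Finset.coe_inter, ← Finset.coe_union, ← rks_eq_eRk hM _ (Finset.finite_toSet _),
    ← rks_eq_eRk hM _ (Finset.finite_toSet _), ← rks_eq_eRk hM _ (Finset.finite_toSet _),
    ← rks_eq_eRk hM _ (Finset.finite_toSet _)] at h
  exact_mod_cast h

private theorem tc_ins {M : Matroid ℕ} (hM : M.Finite) (X : Finset ℕ) (e : ℕ) :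
    rks M ((insert e X : Finset ℕ) : Set ℕ) ≤ rks M (X : Set ℕ) + 1 := by
  have h := M.eRk_insert_le_add_one e (X : Set ℕ)
  rw [← Finset.coe_insert, ← rks_eq_eRk hM _ (Finset.finite_toSet _),
    ← rks_eq_eRk hM _ (Finset.finite_toSet _)] at h
  exact_mod_cast h

private theorem tc_sing {M : Matroid ℕ} {e : ℕ} (h : M.Indep {e}) : rks M {e} = 1 := by
  apply le_antisymm
  · refine tc_le M _ _ fun I hI _ => ?_
    have h1 := Set.ncard_le_ncard hI (Set.finite_singleton e)
    rwa [Set.ncard_singleton] at h1
  · have h1 := tc_ge M {e} (Set.finite_singleton e) {e} h (Set.Subset.refl _)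
    rwa [Set.ncard_singleton] at h1

private theorem tc_basis (M : Matroid ℕ) (X I : Set ℕ) (hX : X.Finite) (hI : M.IsBasis' I X) :
    rks M X = I.ncard := by
  apply le_antisymm
  · apply tc_le
    intro J hJX hJ
    have h2 := hJ.encard_le_eRk_of_subset hJX
    rw [hI.eRk_eq_encard, ← (hX.subset hJX).cast_ncard_eq,
      ← (hX.subset hI.subset).cast_ncard_eq] at h2
    exact_mod_cast h2
  · exact tc_ge M X hX I hI.indep hI.subset

private theorem tc_contract (M : Matroid ℕ) (G B : Set ℕ) (hG : G.Finite) (hB : B.Finite)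
    (hd : Disjoint G B) : rks (M.contract G) B = rks M (G ∪ B) - rks M G := by
  obtain ⟨I, hI⟩ := M.exists_isBasis' G
  have hIf : I.Finite := hG.subset hI.subset
  have hr := tc_basis M G I hG hI
  obtain ⟨K, hK, hIK⟩ := hI.indep.subset_isBasis'_of_subset
    (hI.subset.trans (Set.subset_union_left (t := B)))
  have hKf : K.Finite := (hG.union hB).subset hK.subset
  have hr2 := tc_basis M (G ∪ B) K (hG.union hB) hK
  rw [hr, hr2]
  apply le_antisymm
  · apply tc_le
    intro J hJB hJ
    rw [hI.contract_indep_iff] at hJ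
    have hJf : J.Finite := hB.subset hJB
    have h1 := tc_ge M (G ∪ B) (hG.union hB) (J ∪ I) hJ.1
      (Set.union_subset (hJB.trans Set.subset_union_right) (hI.subset.trans Set.subset_union_left))
    have h2 : Disjoint J I := (Set.disjoint_of_subset hI.subset hJB hd).symm
    rw [Set.ncard_union_eq h2 hJf hIf, hr2] at h1
    omega
  · have hKG : K ∩ G = I := by
      symm
      refine hI.eq_of_subset_indep (hK.indep.subset Set.inter_subset_left) ?_
        Set.inter_subset_right
      exact Set.subset_inter hIK hI.subset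
    have h1 : K \ I ⊆ B := by
      intro e he
      rcases hK.subset he.1 with h | h
      · exact absurd (hKG ▸ ⟨he.1, h⟩ : e ∈ I) he.2
      · exact h
    have h2 : (M.contract G).Indep (K \ I) := by
      rw [hI.contract_indep_iff, Set.sdiff_union_of_subset hIK]
      exact ⟨hK.indep, Set.disjoint_of_subset_right h1 hd⟩
    have h3 := tc_ge (M.contract G) B hB (K \ I) h2 h1
    rwa [Set.ncard_sdiff hIK hIf] at h3

private theorem tc_con {M : Matroid ℕ} {e : ℕ} (h : M.Indep {e}) (X : Finset ℕ) (he : e ∉ X) :
    rks (M.contract {e}) (X : Set ℕ) = rks M ((insert e X : Finset ℕ) : Set ℕ) - 1 := by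
  rw [tc_contract M {e} (X : Set ℕ) (Set.finite_singleton e) X.finite_toSet
    (by rw [Set.disjoint_singleton_left]; exact_mod_cast he), tc_sing h, Finset.coe_insert,
    Set.singleton_union]

private theorem tc_rr (M : Matroid ℕ) {X Y : Set ℕ} (h : X ⊆ Y) :
    rks (M.restrict Y) X = rks M X := by
  unfold rks
  congr 1
  ext n
  constructor
  · rintro ⟨I, hIX, hI, hn⟩
    rw [Matroid.restrict_indep_iff] at hI
    exact ⟨I, hIX, hI.1, hn⟩
  · rintro ⟨I, hIX, hI, hn⟩
    refine ⟨I, hIX, ?_, hn⟩
    rw [Matroid.restrict_indep_iff]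
    exact ⟨hI, hIX.trans h⟩

private theorem tc_dr (M : Matroid ℕ) (Y : Finset ℕ) (e : ℕ) :
    (M.restrict (Y : Set ℕ)).delete {e} = M.restrict ((Y.erase e : Finset ℕ) : Set ℕ) := by
  rw [Matroid.delete_eq_restrict, Matroid.restrict_ground_eq,
    Matroid.restrict_restrict_eq _ Set.sdiff_subset, Finset.coe_erase]

/-- the characteristic polynomial of a restriction -/
private theorem tc_chf (M : Matroid ℕ) (H : Finset ℕ) (x : ℝ) :
    chf (M.restrict (H : Set ℕ)) H x = ∑ X ∈ H.powerset,
      (-1 : ℝ) ^ X.card * x ^ (rks M (H : Set ℕ) - rks M (X : Set ℕ)) := by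
  unfold chf
  refine Finset.sum_congr rfl fun X hX => ?_
  have h1 : (X : Set ℕ) ⊆ (H : Set ℕ) := by exact_mod_cast Finset.mem_powerset.1 hX
  rw [Matroid.restrict_ground_eq, tc_rr M (Set.Subset.refl _), tc_rr M h1]

section

variable {C : Matroid ℕ → Prop} (hdel : ∀ M, C M → ∀ e ∈ M.E, C (M.delete {e}))

include hdel in
/-- the class is closed under restrictions -/
private theorem tc_C {M : Matroid ℕ} (hM : C M) {E : Finset ℕ} (hE : (E : Set ℕ) = M.E)
    {Y : Finset ℕ} (hY : Y ⊆ E) : C (M.restrict (Y : Set ℕ)) := by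
  have key : ∀ D : Finset ℕ, D ⊆ E → C (M.restrict ((E \ D : Finset ℕ) : Set ℕ)) := by
    intro D
    induction D using Finset.induction_on with
    | empty =>
      intro _
      rw [Finset.sdiff_empty, hE, Matroid.restrict_ground_eq_self]
      exact hM
    | insert a D ha ih =>
      intro hD
      have h1 := ih ((Finset.subset_insert a D).trans hD)
      have h2 : a ∈ (M.restrict ((E \ D : Finset ℕ) : Set ℕ)).E := by
        rw [Matroid.restrict_ground_eq]
        exact_mod_cast Finset.mem_sdiff.2 ⟨hD (Finset.mem_insert_self a D), ha⟩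
      have h3 := hdel _ h1 a h2
      rw [tc_dr] at h3
      have h4 : (E \ D).erase a = E \ insert a D := by
        ext z
        simp only [Finset.mem_erase, Finset.mem_sdiff, Finset.mem_insert]
        tauto
      rwa [h4] at h3
  have h5 := key (E \ Y) Finset.sdiff_subset
  rwa [Finset.sdiff_sdiff_eq_self hY] at h5

variable (hcon : ∀ M, C M → ∀ e ∈ M.E, C (M.contract {e})) {x : ℝ} {n : ℕ}
  (ih : ∀ M, C M → (∀ e ∈ M.E, M.Indep {e}) → ∀ E : Finset ℕ, (E : Set ℕ) = M.E → E.card < n →
    0 < chf M E x)

include ih in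
private theorem tc_nonneg {M : Matroid ℕ} (hM : C M) {E : Finset ℕ} (hE : (E : Set ℕ) = M.E)
    (hn : E.card < n) : 0 ≤ chf M E x := by
  by_cases hl : ∀ e ∈ M.E, M.Indep {e}
  · exact (ih M hM hl E hE hn).le
  · push Not at hl
    obtain ⟨e, he, hne⟩ := hl
    rw [← hE] at he
    rw [chf_loop E hE e (by exact_mod_cast he) hne]

include hdel hcon ih in
/-- deleting elements outside of a spanning set -/
private theorem tc_drop {N : Matroid ℕ} (hN : C N) {EN : Finset ℕ} (hEN : (EN : Set ℕ) = N.E)
    (hn : EN.card < n) (H : Finset ℕ) (T : Finset ℕ) :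
    Disjoint T H → H ∪ T ⊆ EN → rks N ((H ∪ T : Finset ℕ) : Set ℕ) ≤ rks N (H : Set ℕ) →
      chf (N.restrict ((H ∪ T : Finset ℕ) : Set ℕ)) (H ∪ T) x ≤
        chf (N.restrict (H : Set ℕ)) H x := by
  induction T using Finset.induction_on with
  | empty =>
    intro _ _ _
    rw [Finset.union_empty]
  | insert f T hf ihT =>
    intro hd hsub hr
    rw [Finset.disjoint_insert_left] at hd
    set Y : Finset ℕ := H ∪ insert f T with hY
    have hfY : f ∈ Y := Finset.mem_union_right _ (Finset.mem_insert_self f T)
    have hYe : Y.erase f = H ∪ T := by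
      ext z
      simp only [hY, Finset.mem_erase, Finset.mem_union, Finset.mem_insert]
      constructor
      · tauto
      · rintro (h | h)
        · exact ⟨fun e => hd.1 (e ▸ h), Or.inl h⟩
        · exact ⟨fun e => hf (e ▸ h), Or.inr (Or.inr h)⟩
    have hsub2 : H ∪ T ⊆ Y := by rw [← hYe]; exact Finset.erase_subset f Y
    have hr2 : rks N ((H ∪ T : Finset ℕ) : Set ℕ) ≤ rks N (H : Set ℕ) :=
      (tc_mono N _ _ hsub2).trans hr
    have h1 := ihT hd.2 (hsub2.trans hsub) hr2
    have hCY : C (N.restrict (Y : Set ℕ)) := tc_C hdel hN hEN hsub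
    have hspan : rks (N.restrict (Y : Set ℕ)) ((N.restrict (Y : Set ℕ)).E \ {f}) =
        rks (N.restrict (Y : Set ℕ)) (N.restrict (Y : Set ℕ)).E := by
      rw [Matroid.restrict_ground_eq, tc_rr N (Set.Subset.refl _), tc_rr N Set.sdiff_subset,
        ← Finset.coe_erase, hYe]
      have h2 := tc_mono N H (H ∪ T) Finset.subset_union_left
      have h3 := tc_mono N _ _ hsub2
      omega
    have h4 := chf_del_contr (M := N.restrict (Y : Set ℕ)) Y rfl f hfY hspan x
    rw [tc_dr, hYe] at h4
    have h5 : 0 ≤ chf ((N.restrict (Y : Set ℕ)).contract {f}) (H ∪ T) x := by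
      refine tc_nonneg ih (hcon _ hCY f (by exact_mod_cast hfY)) ?_ ?_
      · rw [Matroid.contract_ground, Matroid.restrict_ground_eq, ← hYe, Finset.coe_erase]
      · exact (Finset.card_le_card (hsub2.trans hsub)).trans_lt hn
    linarith

include hdel hcon ih in
/-- adding the elements of a set `S` to a hyperplane `H` -/
private theorem tc_grow (hfin : ∀ M, C M → M.Finite) {M : Matroid ℕ} (hM : C M)
    (hl : ∀ e ∈ M.E, M.Indep {e}) {E : Finset ℕ} (hE : (E : Set ℕ) = M.E) (hn : E.card = n)
    (H : Finset ℕ) (hH : H ⊆ E) (hHr : rks M (H : Set ℕ) < rks M (E : Set ℕ)) (S : Finset ℕ) :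
    S.Nonempty → Disjoint S H → S ⊆ E →
      (∀ e ∈ S, rks M (E : Set ℕ) ≤ rks M ((insert e H : Finset ℕ) : Set ℕ)) →
      (x - S.card) * chf (M.restrict (H : Set ℕ)) H x ≤
        chf (M.restrict ((H ∪ S : Finset ℕ) : Set ℕ)) (H ∪ S) x := by
  induction S using Finset.induction_on with
  | empty =>
    intro h
    exact absurd h Finset.not_nonempty_empty
  | insert e S he ihS =>
    intro _ hd hsub hsp
    rw [Finset.disjoint_insert_left] at hd
    set Y : Finset ℕ := H ∪ insert e S with hY
    have heE : e ∈ E := hsub (Finset.mem_insert_self e S)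
    have heM : M.Indep {e} := hl e (by rw [← hE]; exact_mod_cast heE)
    have heY : e ∈ Y := Finset.mem_union_right _ (Finset.mem_insert_self e S)
    have hYE : Y ⊆ E := Finset.union_subset hH hsub
    have hYe : Y.erase e = H ∪ S := by
      ext z
      simp only [hY, Finset.mem_erase, Finset.mem_union, Finset.mem_insert]
      constructor
      · tauto
      · rintro (h | h)
        · exact ⟨fun e' => hd.1 (e' ▸ h), Or.inl h⟩
        · exact ⟨fun e' => he (e' ▸ h), Or.inr (Or.inr h)⟩
    have hCY : C (M.restrict (Y : Set ℕ)) := tc_C hdel hM hE hYE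
    have hHlt : H.card < n := by
      rw [← hn]
      refine Finset.card_lt_card ((Finset.ssubset_iff_of_subset hH).2 ⟨e, heE, hd.1⟩)
    have hHpos : 0 ≤ chf (M.restrict (H : Set ℕ)) H x :=
      tc_nonneg ih (tc_C hdel hM hE hH) rfl hHlt
    have hins : insert e H ⊆ Y := by
      intro z hz
      rcases Finset.mem_insert.1 hz with rfl | hz
      · exact heY
      · exact Finset.mem_union_left _ hz
    have hYr : rks M (Y : Set ℕ) = rks M (E : Set ℕ) :=
      le_antisymm (tc_mono M _ _ hYE) ((hsp e (Finset.mem_insert_self e S)).trans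
        (tc_mono M _ _ hins))
    have hee := hsp e (Finset.mem_insert_self e S)
    have hi := tc_ins (hfin M hM) H e
    rcases S.eq_empty_or_nonempty with hS | hS
    · -- a coloop
      have hYe' : Y.erase e = H := by rw [hYe, hS, Finset.union_empty]
      have hr : rks (M.restrict (Y : Set ℕ)) ((M.restrict (Y : Set ℕ)).E \ {e}) <
          rks (M.restrict (Y : Set ℕ)) (M.restrict (Y : Set ℕ)).E := by
        rw [Matroid.restrict_ground_eq, tc_rr M (Set.Subset.refl _), tc_rr M Set.sdiff_subset,
          ← Finset.coe_erase, hYe', hYr]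
        exact hHr
      have h1 := chf_coloop (M := M.restrict (Y : Set ℕ)) Y rfl e heY hr x
      rw [tc_dr, hYe'] at h1
      rw [h1, hS]
      simp
    · -- not a coloop
      obtain ⟨g, hg⟩ := hS
      have hHS : rks M (E : Set ℕ) ≤ rks M ((H ∪ S : Finset ℕ) : Set ℕ) := by
        refine (hsp g (Finset.mem_insert_of_mem hg)).trans (tc_mono M _ _ ?_)
        intro z hz
        rcases Finset.mem_insert.1 hz with rfl | hz
        · exact Finset.mem_union_right _ hg
        · exact Finset.mem_union_left _ hz
      have hsub2 : H ∪ S ⊆ Y := by rw [← hYe]; exact Finset.erase_subset e Y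
      have hr : rks (M.restrict (Y : Set ℕ)) ((M.restrict (Y : Set ℕ)).E \ {e}) =
          rks (M.restrict (Y : Set ℕ)) (M.restrict (Y : Set ℕ)).E := by
        rw [Matroid.restrict_ground_eq, tc_rr M (Set.Subset.refl _), tc_rr M Set.sdiff_subset,
          ← Finset.coe_erase, hYe]
        have h2 := tc_mono M _ _ hsub2
        omega
      have h1 := chf_del_contr (M := M.restrict (Y : Set ℕ)) Y rfl e heY hr x
      rw [tc_dr, hYe] at h1
      have h2 := ihS ⟨g, hg⟩ hd.2 ((Finset.subset_insert e S).trans hsub)
        (fun f hf => hsp f (Finset.mem_insert_of_mem hf))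
      -- the contraction
      set N : Matroid ℕ := (M.restrict (Y : Set ℕ)).contract {e} with hNdef
      have hCN : C N := hcon _ hCY e (by exact_mod_cast heY)
      have hNE : ((H ∪ S : Finset ℕ) : Set ℕ) = N.E := by
        rw [hNdef, Matroid.contract_ground, Matroid.restrict_ground_eq, ← hYe, Finset.coe_erase]
      have heHS : e ∉ H ∪ S := by
        rw [← hYe]
        exact Finset.notMem_erase e Y
      have hNn : (H ∪ S).card < n := by
        rw [← hn]
        exact Finset.card_lt_card ((Finset.ssubset_iff_of_subset (hsub2.trans hYE)).2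
          ⟨e, heE, heHS⟩)
      have heR : (M.restrict (Y : Set ℕ)).Indep {e} := by
        rw [Matroid.restrict_indep_iff]
        exact ⟨heM, Set.singleton_subset_iff.2 (by exact_mod_cast heY)⟩
      have hNr : ∀ X : Finset ℕ, X ⊆ H ∪ S →
          rks N (X : Set ℕ) = rks M ((insert e X : Finset ℕ) : Set ℕ) - 1 := by
        intro X hX
        rw [hNdef, tc_con heR X (fun h => heHS (hX h)), tc_rr M]
        have h3 : insert e X ⊆ Y := by
          intro z hz
          rcases Finset.mem_insert.1 hz with rfl | hz
          · exact heY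
          · exact hsub2 (hX hz)
        exact_mod_cast h3
      have hNs : rks N ((H ∪ S : Finset ℕ) : Set ℕ) ≤ rks N (H : Set ℕ) := by
        rw [hNr _ (Finset.Subset.refl _), hNr H Finset.subset_union_left]
        have h3 : rks M ((insert e (H ∪ S) : Finset ℕ) : Set ℕ) ≤ rks M (E : Set ℕ) := by
          refine tc_mono M _ _ ?_
          intro z hz
          rcases Finset.mem_insert.1 hz with rfl | hz
          · exact heE
          · exact hYE (hsub2 hz)
        omega
      have h3 := tc_drop hdel hcon ih hCN hNE hNn H S hd.2 (Finset.Subset.refl _) hNs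
      have h4 : N.restrict ((H ∪ S : Finset ℕ) : Set ℕ) = N := by
        rw [hNE, Matroid.restrict_ground_eq_self]
      rw [h4] at h3
      -- the hyperplane is not changed by the contraction
      have h5 : chf (N.restrict (H : Set ℕ)) H x = chf (M.restrict (H : Set ℕ)) H x := by
        have h6 : ∀ X : Finset ℕ, X ⊆ H → rks N (X : Set ℕ) = rks M (X : Set ℕ) := by
          intro X hX
          rw [hNr X (hX.trans Finset.subset_union_left)]
          have h7 := tc_sub (hfin M hM) (insert e X) H
          have h8 : insert e X ∩ H = X := by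
            ext z
            simp only [Finset.mem_inter, Finset.mem_insert]
            constructor
            · rintro ⟨rfl | hz, hz2⟩
              · exact absurd hz2 hd.1
              · exact hz
            · exact fun hz => ⟨Or.inr hz, hX hz⟩
          have h9 : insert e X ∪ H = insert e H := by
            ext z
            simp only [Finset.mem_union, Finset.mem_insert]
            constructor
            · rintro ((h | h) | h)
              · exact Or.inl h
              · exact Or.inr (hX h)
              · exact Or.inr h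
            · rintro (h | h)
              · exact Or.inl (Or.inl h)
              · exact Or.inr h
          rw [h8, h9] at h7
          have h10 := tc_ins (hfin M hM) X e
          omega
        rw [tc_chf, tc_chf]
        refine Finset.sum_congr rfl fun X hX => ?_
        rw [h6 X (Finset.mem_powerset.1 hX), h6 H (Finset.Subset.refl _)]
      rw [h5] at h3
      rw [Finset.card_insert_of_notMem he]
      push_cast
      rw [h1]
      nlinarith

end

/-- Let `C` be closed under deleting and contracting single elements, let `d < x`, and suppose that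
every nonempty simple member `M` of `C` has a set `D` with at most `d` elements whose complement is
not spanning (a small cocircuit), or has a positive characteristic polynomial at `x` provided that
the loopless members with fewer elements have. Then the characteristic polynomials of all loopless
members are positive at `x`. -/
theorem chf_pos_gen (C : Matroid ℕ → Prop) (d : ℝ)
    (hfin : ∀ M, C M → M.Finite)
    (hdel : ∀ M, C M → ∀ e ∈ M.E, C (M.delete {e}))
    (hcon : ∀ M, C M → ∀ e ∈ M.E, C (M.contract {e})) (x : ℝ) (hx : d < x)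
    (hco : ∀ M, C M → M.E.Nonempty → (∀ e ∈ M.E, M.Indep {e}) →
      (∀ e ∈ M.E, ∀ f ∈ M.E, M.Indep {e, f}) →
      (∃ D : Finset ℕ, (D : Set ℕ) ⊆ M.E ∧ (D.card : ℝ) ≤ d ∧
        rks M (M.E \ (D : Set ℕ)) < rks M M.E) ∨
      (∀ E : Finset ℕ, (E : Set ℕ) = M.E → (∀ N, C N → (∀ e ∈ N.E, N.Indep {e}) →
        ∀ EN : Finset ℕ, (EN : Set ℕ) = N.E → EN.card < E.card → 0 < chf N EN x) →
        0 < chf M E x))
    (M : Matroid ℕ) (hM : C M) (hl : ∀ e ∈ M.E, M.Indep {e}) (E : Finset ℕ)
    (hE : (E : Set ℕ) = M.E) : 0 < chf M E x := by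
  obtain ⟨n, hn⟩ : ∃ n, E.card = n := ⟨_, rfl⟩
  induction n using Nat.strong_induction_on generalizing M E with
  | _ n ih =>
  have ih' : ∀ M, C M → (∀ e ∈ M.E, M.Indep {e}) → ∀ E : Finset ℕ, (E : Set ℕ) = M.E →
      E.card < n → 0 < chf M E x := fun M hM hl E hE hlt => ih E.card hlt M hM hl E hE rfl
  rcases E.eq_empty_or_nonempty with hEe | hEne
  · subst hEe
    have h1 : M.E = ∅ := by rw [← hE, Finset.coe_empty]
    unfold chf
    rw [Finset.powerset_empty, Finset.sum_singleton, h1, Finset.coe_empty, Nat.sub_self,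
      Finset.card_empty, pow_zero, pow_zero, one_mul]
    exact one_pos
  by_cases hs : ∀ e ∈ M.E, ∀ f ∈ M.E, M.Indep {e, f}
  · -- simple
    rcases hco M hM (by rw [← hE]; exact_mod_cast hEne) hl hs with ⟨D, hD1, hD2, hD3⟩ | hdir
    swap
    · exact hdir E hE fun N hN hlN EN hEN hlt => ih' N hN hlN EN hEN (by omega)
    have hDE : D ⊆ E := by
      rw [← hE] at hD1
      exact_mod_cast hD1
    rw [← hE, ← Finset.coe_sdiff] at hD3
    -- a minimal subset
    set F : Finset (Finset ℕ) := D.powerset.filter
      (fun D' => rks M ((E \ D' : Finset ℕ) : Set ℕ) < rks M (E : Set ℕ)) with hF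
    have hFne : F.Nonempty := ⟨D, Finset.mem_filter.2 ⟨Finset.mem_powerset_self D, hD3⟩⟩
    obtain ⟨D', hD'F, hmin⟩ := Finset.exists_min_image F Finset.card hFne
    obtain ⟨hD'D, hD'r⟩ := Finset.mem_filter.1 hD'F
    rw [Finset.mem_powerset] at hD'D
    have hD'E : D' ⊆ E := hD'D.trans hDE
    have hD'ne : D'.Nonempty := by
      rw [Finset.nonempty_iff_ne_empty]
      rintro rfl
      rw [Finset.sdiff_empty] at hD'r
      exact lt_irrefl _ hD'r
    have hsp : ∀ e ∈ D', rks M (E : Set ℕ) ≤
        rks M ((insert e (E \ D') : Finset ℕ) : Set ℕ) := by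
      intro e he
      by_contra hcon'
      push Not at hcon'
      have h1 : E \ D'.erase e = insert e (E \ D') := by
        ext z
        simp only [Finset.mem_sdiff, Finset.mem_erase, Finset.mem_insert]
        constructor
        · rintro ⟨h1, h2⟩
          by_cases hz : z = e
          · exact Or.inl hz
          · exact Or.inr ⟨h1, fun h => h2 ⟨hz, h⟩⟩
        · rintro (rfl | ⟨h1, h2⟩)
          · exact ⟨hD'E he, fun h => h.1 rfl⟩
          · exact ⟨h1, fun h => h2 h.2⟩
      have h2 : D'.erase e ∈ F := by
        refine Finset.mem_filter.2 ⟨Finset.mem_powerset.2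
          ((Finset.erase_subset e D').trans hD'D), ?_⟩
        rw [h1]
        exact hcon'
      have h3 := hmin _ h2
      have h4 := Finset.card_erase_lt_of_mem he
      omega
    have h1 := tc_grow (x := x) hdel hcon ih' hfin hM hl hE hn (E \ D') Finset.sdiff_subset hD'r
      D' hD'ne Finset.disjoint_sdiff hD'E hsp
    have h2 : (E \ D') ∪ D' = E := Finset.sdiff_union_of_subset hD'E
    rw [h2, hE, Matroid.restrict_ground_eq_self] at h1
    have h3 : 0 < chf (M.restrict ((E \ D' : Finset ℕ) : Set ℕ)) (E \ D') x := by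
      refine ih' _ (tc_C hdel hM hE Finset.sdiff_subset) ?_ _ rfl ?_
      · intro e he
        rw [Matroid.restrict_ground_eq] at he
        rw [Matroid.restrict_indep_iff]
        refine ⟨hl e ?_, Set.singleton_subset_iff.2 he⟩
        rw [← hE]
        have h4 : e ∈ E \ D' := by exact_mod_cast he
        exact_mod_cast (Finset.mem_sdiff.1 h4).1
      · rw [← hn]
        obtain ⟨e, he⟩ := hD'ne
        refine Finset.card_lt_card ((Finset.ssubset_iff_of_subset Finset.sdiff_subset).2
          ⟨e, hD'E he, fun h => (Finset.mem_sdiff.1 h).2 he⟩)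
    have h4 : (D'.card : ℝ) ≤ D.card := by exact_mod_cast Finset.card_le_card hD'D
    have h5 : 0 < x - D'.card := by linarith
    exact (mul_pos h5 h3).trans_le h1
  · -- a pair of parallel elements
    push Not at hs
    obtain ⟨e, he, f, hf, hne⟩ := hs
    have heE : e ∈ E := by rw [← hE] at he; exact_mod_cast he
    have hfE : f ∈ E := by rw [← hE] at hf; exact_mod_cast hf
    have hef : e ≠ f := by
      rintro rfl
      rw [Set.pair_eq_singleton] at hne
      exact hne (hl e he)
    have hpair : rks M ((insert e {f} : Finset ℕ) : Set ℕ) ≤ 1 := by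
      refine tc_le M _ _ fun I hI hI' => ?_
      rw [Finset.coe_insert, Finset.coe_singleton] at hI
      have h1 : I ⊂ {e, f} := by
        refine hI.ssubset_of_ne ?_
        rintro rfl
        exact hne hI'
      have h2 := Set.ncard_lt_ncard h1 (Set.toFinite _)
      rw [Set.ncard_pair hef] at h2
      omega
    have hspan : rks M (M.E \ {e}) = rks M M.E := by
      rw [← hE, ← Finset.coe_erase]
      refine le_antisymm (tc_mono M _ _ (Finset.erase_subset e E)) ?_
      have h1 := tc_sub (hfin M hM) (insert e {f}) (E.erase e)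
      have h2 : insert e {f} ∩ E.erase e = {f} := by
        ext z
        simp only [Finset.mem_inter, Finset.mem_insert, Finset.mem_singleton, Finset.mem_erase]
        constructor
        · tauto
        · rintro rfl
          exact ⟨Or.inr rfl, Ne.symm hef, hfE⟩
      have h3 : insert e {f} ∪ E.erase e = E := by
        ext z
        simp only [Finset.mem_union, Finset.mem_insert, Finset.mem_singleton, Finset.mem_erase]
        constructor
        · rintro ((rfl | rfl) | h)
          · exact heE
          · exact hfE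
          · exact h.2
        · intro hz
          by_cases hze : z = e
          · exact Or.inl (Or.inl hze)
          · exact Or.inr ⟨hze, hz⟩
      rw [h2, h3] at h1
      have h4 : rks M (({f} : Finset ℕ) : Set ℕ) = 1 := by
        rw [Finset.coe_singleton]
        exact tc_sing (hl f hf)
      omega
    have h1 := chf_del_contr E hE e heE hspan x
    have h2 : chf (M.contract {e}) (E.erase e) x = 0 := by
      refine chf_loop (E.erase e) ?_ f (Finset.mem_erase.2 ⟨Ne.symm hef, hfE⟩) ?_ x
      · rw [Matroid.contract_ground, Finset.coe_erase, hE]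
      · rw [(hl e he).contract_indep_iff]
        rintro ⟨-, h3⟩
        apply hne
        rw [Set.singleton_union] at h3
        rwa [Set.pair_comm] at h3
    rw [h1, h2, sub_zero]
    refine ih' _ (hdel M hM e he) ?_ _ ?_ ?_
    · intro g hg
      rw [Matroid.delete_ground] at hg
      rw [Matroid.delete_indep_iff]
      refine ⟨hl g hg.1, ?_⟩
      rw [Set.disjoint_singleton]
      exact hg.2
    · rw [Matroid.delete_ground, Finset.coe_erase, hE]
    · rw [← hn]
      exact Finset.card_erase_lt_of_mem heE

end Pool.Agent.Lib.MP_4a8162_co
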