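import Pool.Agent.Lib.MP_4a8162_co.TwDC
import Pool.Agent.Lib.MP_4a8162_co.DCrit

set_option autoImplicit false
set_option linter.unusedSectionVars false

/-! Sums of represented matroids along a full subspace: a formula for the characteristic
polynomial. -/

namespace Pool.Agent.Lib.MP_4a8162_co

namespace GS

open Module Submodule Finset

section general

variable {K : Type*} [Field K] {V : Type*} [AddCommGroup V] [Module K V] [FiniteDimensional K V]
  (v : ℕ → V)

/-- the span of the vectors with index in `X` -/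
def sp (K : Type*) [Field K] {V : Type*} [AddCommGroup V] [Module K V] (v : ℕ → V) (X : Set ℕ) :
    Submodule K V := span K (v '' X)

theorem sp_union (X Y : Set ℕ) : sp K v (X ∪ Y) = sp K v X ⊔ sp K v Y := by
  unfold sp
  rw [Set.image_union, span_union]

theorem sp_mono {X Y : Set ℕ} (h : X ⊆ Y) : sp K v X ≤ sp K v Y :=
  span_mono (Set.image_mono h)

open Classical in
/-- the indicator of `D ≤ U` -/
noncomputable def ind (D U : Submodule K V) : ℝ := if D ≤ U then 1 else 0

theorem ind_pos {D U : Submodule K V} (h : D ≤ U) : ind D U = 1 := by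
  unfold ind
  rw [if_pos h]

theorem ind_neg {D U : Submodule K V} (h : ¬ D ≤ U) : ind D U = 0 := by
  unfold ind
  rw [if_neg h]

theorem ind_sup (A B U : Submodule K V) : ind (A ⊔ B) U = ind A U * ind B U := by
  by_cases hA : A ≤ U
  · by_cases hB : B ≤ U
    · rw [ind_pos hA, ind_pos hB, ind_pos (sup_le hA hB), one_mul]
    · rw [ind_neg hB, ind_neg (fun h => hB (le_sup_right.trans h)), mul_zero]
  · rw [ind_neg hA, ind_neg (fun h => hA (le_sup_left.trans h)), zero_mul]

/-- the sum over the subsets whose span meets `L` inside `U` -/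
noncomputable def Nn (K : Type*) [Field K] {V : Type*} [AddCommGroup V] [Module K V] (v : ℕ → V)
    (E : Finset ℕ) (L : Submodule K V) (R : ℕ) (U : Submodule K V) (x : ℝ) : ℝ :=
  ∑ X ∈ E.powerset, ind (sp K v X ⊓ L) U *
    ((-1 : ℝ) ^ X.card * x ^ (R - finrank K (sp K v X ⊔ L : Submodule K V)))

/-- the exponents -/
theorem expo {V1 V2 L : Submodule K V} (hL : V1 ⊓ V2 = L) {A B : Submodule K V} (hA : A ≤ V1)
    (hB : B ≤ V2) :
    finrank K V1 + finrank K V2 - finrank K L - finrank K (A ⊔ B : Submodule K V) =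
      (finrank K V1 - finrank K (A ⊔ L : Submodule K V)) +
      (finrank K V2 - finrank K (B ⊔ L : Submodule K V)) +
      (finrank K L - finrank K ((A ⊓ L) ⊔ (B ⊓ L) : Submodule K V)) := by
  have hL1 : L ≤ V1 := hL ▸ inf_le_left
  have hL2 : L ≤ V2 := hL ▸ inf_le_right
  have h1 := finrank_sup_add_finrank_inf_eq A B
  have h2 := finrank_sup_add_finrank_inf_eq A L
  have h3 := finrank_sup_add_finrank_inf_eq B L
  have h4 := finrank_sup_add_finrank_inf_eq (A ⊓ L) (B ⊓ L)
  have h5 : (A ⊓ L) ⊓ (B ⊓ L) = A ⊓ B := by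
    apply le_antisymm
    · exact inf_le_inf inf_le_left inf_le_left
    · have : A ⊓ B ≤ L := by
        rw [← hL]
        exact inf_le_inf hA hB
      exact le_inf (le_inf inf_le_left this) (le_inf inf_le_right this)
  rw [h5] at h4
  have h6 : finrank K (A ⊔ L : Submodule K V) ≤ finrank K V1 := finrank_mono (sup_le hA hL1)
  have h7 : finrank K (B ⊔ L : Submodule K V) ≤ finrank K V2 := finrank_mono (sup_le hB hL2)
  have h8 : finrank K ((A ⊓ L) ⊔ (B ⊓ L) : Submodule K V) ≤ finrank K L :=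
    finrank_mono (sup_le inf_le_right inf_le_right)
  have h9 : finrank K L ≤ finrank K V1 := finrank_mono hL1
  omega

/-- the double sum over the subsets of a disjoint union -/
theorem sum_powerset_union {E1 E2 : Finset ℕ} (hd : Disjoint E1 E2) (f : Finset ℕ → ℝ) :
    ∑ X ∈ (E1 ∪ E2).powerset, f X =
      ∑ X ∈ E1.powerset, ∑ Y ∈ E2.powerset, f (X ∪ Y) := by
  classical
  rw [← Finset.sum_product']
  symm
  refine Finset.sum_bij (fun p _ => p.1 ∪ p.2) ?_ ?_ ?_ ?_
  · intro p hp
    rw [Finset.mem_product, Finset.mem_powerset, Finset.mem_powerset] at hp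
    exact Finset.mem_powerset.2 (Finset.union_subset_union hp.1 hp.2)
  · intro p hp q hq hpq
    rw [Finset.mem_product, Finset.mem_powerset, Finset.mem_powerset] at hp hq
    have e1 : ∀ p : Finset ℕ × Finset ℕ, p.1 ⊆ E1 ∧ p.2 ⊆ E2 → (p.1 ∪ p.2) ∩ E1 = p.1 := by
      intro p hp
      ext z
      simp only [Finset.mem_inter, Finset.mem_union]
      constructor
      · rintro ⟨h | h, h'⟩
        · exact h
        · exact absurd h' (Finset.disjoint_right.1 hd (hp.2 h))
      · intro h
        exact ⟨Or.inl h, hp.1 h⟩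
    have e2 : ∀ p : Finset ℕ × Finset ℕ, p.1 ⊆ E1 ∧ p.2 ⊆ E2 → (p.1 ∪ p.2) ∩ E2 = p.2 := by
      intro p hp
      ext z
      simp only [Finset.mem_inter, Finset.mem_union]
      constructor
      · rintro ⟨h | h, h'⟩
        · exact absurd h' (Finset.disjoint_left.1 hd (hp.1 h))
        · exact h
      · intro h
        exact ⟨Or.inr h, hp.2 h⟩
    exact Prod.ext (by rw [← e1 p hp, ← e1 q hq, hpq]) (by rw [← e2 p hp, ← e2 q hq, hpq])
  · intro Z hZ
    rw [Finset.mem_powerset] at hZ
    refine ⟨(Z ∩ E1, Z ∩ E2), ?_, ?_⟩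
    · rw [Finset.mem_product, Finset.mem_powerset, Finset.mem_powerset]
      exact ⟨Finset.inter_subset_right, Finset.inter_subset_right⟩
    · rw [← Finset.inter_union_distrib_left]
      exact Finset.inter_eq_left.2 hZ
  · intro p _
    rfl

/-- The sum formula. -/
theorem sum_formula {V1 V2 L : Submodule K V} (hL : V1 ⊓ V2 = L) (E1 E2 : Finset ℕ)
    (hd : Disjoint E1 E2) (h1 : sp K v (E1 : Set ℕ) ≤ V1) (h2 : sp K v (E2 : Set ℕ) ≤ V2)
    {ι : Type*} [Fintype ι] (U : ι → Submodule K V) (w : ι → ℝ) (x : ℝ)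
    (hw : ∀ D : Submodule K V, D ≤ L → x ^ (finrank K L - finrank K D) =
      ∑ i, w i * ind D (U i)) :
    ∑ X ∈ (E1 ∪ E2).powerset, (-1 : ℝ) ^ X.card *
        x ^ (finrank K V1 + finrank K V2 - finrank K L - finrank K (sp K v X)) =
      ∑ i, w i * Nn K v E1 L (finrank K V1) (U i) x * Nn K v E2 L (finrank K V2) (U i) x := by
  classical
  rw [sum_powerset_union hd]
  have hR : ∀ i, w i * Nn K v E1 L (finrank K V1) (U i) x * Nn K v E2 L (finrank K V2) (U i) x =
      ∑ X ∈ E1.powerset, ∑ Y ∈ E2.powerset, (w i * (ind (sp K v (X : Set ℕ) ⊓ L) (U i) *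
        ind (sp K v (Y : Set ℕ) ⊓ L) (U i))) * (((-1 : ℝ) ^ X.card *
        x ^ (finrank K V1 - finrank K (sp K v (X : Set ℕ) ⊔ L : Submodule K V))) *
        ((-1 : ℝ) ^ Y.card *
        x ^ (finrank K V2 - finrank K (sp K v (Y : Set ℕ) ⊔ L : Submodule K V)))) := by
    intro i
    unfold Nn
    rw [mul_assoc, Finset.sum_mul_sum, Finset.mul_sum]
    refine Finset.sum_congr rfl fun X _ => ?_
    rw [Finset.mul_sum]
    refine Finset.sum_congr rfl fun Y _ => ?_
    ring
  simp only [hR]
  conv_rhs => rw [Finset.sum_comm]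
  refine Finset.sum_congr rfl fun X hX => ?_
  conv_rhs => rw [Finset.sum_comm]
  refine Finset.sum_congr rfl fun Y hY => ?_
  rw [Finset.mem_powerset] at hX hY
  rw [← Finset.sum_mul]
  have hdis : Disjoint X Y := Finset.disjoint_of_subset_left hX
    (Finset.disjoint_of_subset_right hY hd)
  have e1 : sp K v ((X ∪ Y : Finset ℕ) : Set ℕ) = sp K v X ⊔ sp K v Y := by
    rw [Finset.coe_union, sp_union]
  have e2 := expo (K := K) hL (A := sp K v (X : Set ℕ)) (B := sp K v (Y : Set ℕ))
    ((sp_mono v (by exact_mod_cast hX)).trans h1) ((sp_mono v (by exact_mod_cast hY)).trans h2)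
  rw [e1, e2, pow_add, pow_add, Finset.card_union_of_disjoint hdis, pow_add,
    hw _ (sup_le inf_le_right inf_le_right)]
  simp only [ind_sup]
  ring


theorem finrank_sup_singleton (A : Submodule K V) (z : V) (hz : z ∉ A) :
    finrank K (A ⊔ span K {z} : Submodule K V) = finrank K A + 1 := by
  have hz0 : z ≠ 0 := fun h => hz (h ▸ A.zero_mem)
  have h1 := finrank_sup_add_finrank_inf_eq A (span K {z})
  have h2 : A ⊓ span K {z} = ⊥ := by
    rw [eq_bot_iff]
    rintro y ⟨hy1, hy2⟩
    obtain ⟨r, rfl⟩ := mem_span_singleton.1 hy2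
    by_cases hr : r = 0
    · simp [hr]
    · exfalso
      apply hz
      have := A.smul_mem r⁻¹ hy1
      rwa [smul_smul, inv_mul_cancel₀ hr, one_smul] at this
  rw [h2, finrank_bot, add_zero, finrank_span_singleton hz0] at h1
  exact h1

theorem sup_singleton_of_mem (A : Submodule K V) (z : V) (hz : z ∈ A) :
    A ⊔ span K {z} = A := by
  rw [sup_eq_left, span_le, Set.singleton_subset_iff]
  exact hz

theorem sp_insert (e : ℕ) (X : Finset ℕ) :
    sp K v ((insert e X : Finset ℕ) : Set ℕ) = sp K v (X : Set ℕ) ⊔ span K {v e} := by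
  rw [Finset.coe_insert, Set.insert_eq, sp_union]
  unfold sp
  rw [Set.image_singleton, sup_comm]

/-- a signed sum that cancels -/
theorem cancel (S : Finset ℕ) (t : ℕ) (ht : t ∈ S) (f : Finset ℕ → ℝ)
    (h : ∀ Y : Finset ℕ, Y ⊆ S → t ∉ Y → f (insert t Y) = f Y) :
    ∑ Y ∈ S.powerset, (-1 : ℝ) ^ Y.card * f Y = 0 := by
  classical
  rw [← Finset.insert_erase ht, Finset.sum_powerset_insert (Finset.notMem_erase t S),
    ← Finset.sum_add_distrib]
  refine Finset.sum_eq_zero fun Y hY => ?_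
  rw [Finset.mem_powerset] at hY
  have htY : t ∉ Y := fun h1 => Finset.notMem_erase t S (hY h1)
  rw [h Y (hY.trans (Finset.erase_subset _ _)) htY, Finset.card_insert_of_notMem htY]
  ring

open Classical in
/-- the elements of `T` with vector in `U` -/
noncomputable def TU (T : Finset ℕ) (U : Submodule K V) : Finset ℕ := T.filter (fun t => v t ∈ U)

open Classical in
/-- the elements of `T` with vector outside `U` -/
noncomputable def TN (T : Finset ℕ) (U : Submodule K V) : Finset ℕ := T.filter (fun t => v t ∉ U)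

/-- the subspace spanned by `T` has all its points in `T` -/
def Full (T : Finset ℕ) : Prop :=
  ∀ y ∈ sp K v (T : Set ℕ), y ≠ 0 → ∃ t ∈ T, ∃ r : K, y = r • v t

variable {T : Finset ℕ}

theorem mem_TU {U : Submodule K V} {t : ℕ} : t ∈ TU v T U ↔ t ∈ T ∧ v t ∈ U := by
  classical
  unfold TU
  simp only [Finset.mem_filter]

theorem mem_TN {U : Submodule K V} {t : ℕ} : t ∈ TN v T U ↔ t ∈ T ∧ v t ∉ U := by
  classical
  unfold TN
  simp only [Finset.mem_filter]

/-- a point of `L` outside `U` -/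
theorem Full.exists_point (hT : Full (K := K) v T) {U A : Submodule K V}
    (hA : A ≤ sp K v (T : Set ℕ)) (h : ¬ A ≤ U) : ∃ t ∈ T, v t ∈ A ∧ v t ∉ U := by
  obtain ⟨y, hy, hyU⟩ := SetLike.not_le_iff_exists.1 h
  have hy0 : y ≠ 0 := fun h1 => hyU (h1 ▸ U.zero_mem)
  obtain ⟨t, ht, r, e⟩ := hT y (hA hy) hy0
  have hr : r ≠ 0 := by
    rintro rfl
    exact hy0 (by rw [e, zero_smul])
  have e2 : v t = r⁻¹ • y := by rw [e, smul_smul, inv_mul_cancel₀ hr, one_smul]
  refine ⟨t, ht, ?_, ?_⟩
  · rw [e2]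
    exact A.smul_mem _ hy
  · intro h2
    exact hyU (e ▸ U.smul_mem r h2)

theorem Full.sp_TU (hT : Full (K := K) v T) {U : Submodule K V}
    (hU : U ≤ sp K v (T : Set ℕ)) : sp K v (TU v T U : Set ℕ) = U := by
  apply le_antisymm
  · unfold sp
    rw [span_le]
    rintro _ ⟨t, ht, rfl⟩
    exact ((mem_TU v).1 (Finset.mem_coe.1 ht)).2
  · by_contra h
    obtain ⟨t, ht, h1, h2⟩ := hT.exists_point v hU h
    apply h2
    exact subset_span ⟨t, Finset.mem_coe.2 ((mem_TU v).2 ⟨ht, h1⟩), rfl⟩

theorem TU_union_TN (U : Submodule K V) : TN v T U ∪ TU v T U = T := by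
  classical
  ext t
  rw [Finset.mem_union, mem_TU, mem_TN]
  tauto

/-- the weights -/
noncomputable def W (T : Finset ℕ) (U : Submodule K V) (x : ℝ) : ℝ :=
  ∑ Y ∈ (TN v T U).powerset, (-1 : ℝ) ^ Y.card *
    x ^ (finrank K (sp K v (T : Set ℕ)) -
      finrank K (U ⊔ sp K v (Y : Set ℕ) : Submodule K V))

/-- one side -/
theorem Full.side (hT : Full (K := K) v T) {U : Submodule K V} (hU : U ≤ sp K v (T : Set ℕ))
    (E : Finset ℕ) (hd : Disjoint E T) (R : ℕ)
    (hR : finrank K (sp K v (E : Set ℕ) ⊔ sp K v (T : Set ℕ) : Submodule K V) ≤ R) (x : ℝ) :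
    ∑ X ∈ (E ∪ TN v T U).powerset, (-1 : ℝ) ^ X.card *
        x ^ (R - finrank K (sp K v (X : Set ℕ) ⊔ U : Submodule K V)) =
      W v T U x * Nn K v E (sp K v (T : Set ℕ)) R U x := by
  classical
  set L : Submodule K V := sp K v (T : Set ℕ) with hL
  have hTN : TN v T U ⊆ T := fun t ht => ((mem_TN v).1 ht).1
  have hd' : Disjoint E (TN v T U) := Finset.disjoint_of_subset_right hTN hd
  rw [sum_powerset_union hd']
  unfold Nn
  rw [Finset.mul_sum]
  refine Finset.sum_congr rfl fun X hX => ?_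
  rw [Finset.mem_powerset] at hX
  have e0 : ∀ Y ∈ (TN v T U).powerset, (-1 : ℝ) ^ (X ∪ Y).card *
      x ^ (R - finrank K (sp K v ((X ∪ Y : Finset ℕ) : Set ℕ) ⊔ U : Submodule K V)) =
      (-1 : ℝ) ^ X.card * ((-1 : ℝ) ^ Y.card *
        x ^ (R - finrank K (sp K v (X : Set ℕ) ⊔ (U ⊔ sp K v (Y : Set ℕ)) :
          Submodule K V))) := by
    intro Y hY
    rw [Finset.mem_powerset] at hY
    have hdis : Disjoint X Y := Finset.disjoint_of_subset_left hX
      (Finset.disjoint_of_subset_right hY hd')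
    rw [Finset.card_union_of_disjoint hdis, pow_add, Finset.coe_union, sp_union, sup_assoc,
      sup_comm (sp K v (Y : Set ℕ)) U, mul_assoc]
  rw [Finset.sum_congr rfl e0, ← Finset.mul_sum]
  by_cases hc : sp K v (X : Set ℕ) ⊓ L ≤ U
  · rw [ind_pos hc, one_mul]
    have e1 : ∀ Y ∈ (TN v T U).powerset, (-1 : ℝ) ^ Y.card *
        x ^ (R - finrank K (sp K v (X : Set ℕ) ⊔ (U ⊔ sp K v (Y : Set ℕ)) :
          Submodule K V)) =
        x ^ (R - finrank K (sp K v (X : Set ℕ) ⊔ L : Submodule K V)) * ((-1 : ℝ) ^ Y.card *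
          x ^ (finrank K L - finrank K (U ⊔ sp K v (Y : Set ℕ) : Submodule K V))) := by
      intro Y hY
      rw [Finset.mem_powerset] at hY
      have hB : U ⊔ sp K v (Y : Set ℕ) ≤ L :=
        sup_le hU (sp_mono v (by exact_mod_cast hY.trans hTN))
      have h1 := finrank_sup_add_finrank_inf_eq (sp K v (X : Set ℕ)) (U ⊔ sp K v (Y : Set ℕ))
      have h2 := finrank_sup_add_finrank_inf_eq (sp K v (X : Set ℕ)) L
      have h3 : sp K v (X : Set ℕ) ⊓ (U ⊔ sp K v (Y : Set ℕ)) = sp K v (X : Set ℕ) ⊓ L := by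
        apply le_antisymm
        · exact inf_le_inf le_rfl hB
        · exact le_inf inf_le_left (hc.trans le_sup_left)
      rw [h3] at h1
      have h4 : finrank K (U ⊔ sp K v (Y : Set ℕ) : Submodule K V) ≤ finrank K L :=
        finrank_mono hB
      have h5 : finrank K (sp K v (X : Set ℕ) ⊔ L : Submodule K V) ≤ R := by
        refine le_trans (finrank_mono ?_) hR
        exact sup_le_sup_right (sp_mono v (by exact_mod_cast hX)) _
      have h6 : R - finrank K (sp K v (X : Set ℕ) ⊔ (U ⊔ sp K v (Y : Set ℕ)) :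
          Submodule K V) = (R - finrank K (sp K v (X : Set ℕ) ⊔ L : Submodule K V)) +
          (finrank K L - finrank K (U ⊔ sp K v (Y : Set ℕ) : Submodule K V)) := by
        omega
      rw [h6, pow_add]
      ring
    rw [Finset.sum_congr rfl e1, ← Finset.mul_sum]
    unfold W
    ring
  · rw [ind_neg hc]
    obtain ⟨t, ht, h1, h2⟩ := hT.exists_point v inf_le_right hc
    rw [cancel (TN v T U) t ((mem_TN v).2 ⟨ht, h2⟩) (fun Y => x ^ (R - finrank K
      (sp K v (X : Set ℕ) ⊔ (U ⊔ sp K v (Y : Set ℕ)) : Submodule K V)))]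
    · ring
    · intro Y _ _
      have h3 : sp K v (X : Set ℕ) ⊔ (U ⊔ sp K v ((insert t Y : Finset ℕ) : Set ℕ)) =
          sp K v (X : Set ℕ) ⊔ (U ⊔ sp K v (Y : Set ℕ)) := by
        rw [sp_insert, ← sup_assoc, ← sup_assoc, ← sup_assoc]
        apply sup_singleton_of_mem
        exact mem_sup_left (mem_sup_left h1.1)
      show x ^ _ = x ^ _
      rw [h3]

/-- the signed sum of the indicators -/
theorem Full.ind_sum (hT : Full (K := K) v T) {D U : Submodule K V}
    (hU : U ≤ sp K v (T : Set ℕ)) :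
    ∑ Y ∈ (TN v T D).powerset, (-1 : ℝ) ^ Y.card * ind (D ⊔ sp K v (Y : Set ℕ)) U =
      if D = U then 1 else 0 := by
  classical
  by_cases hDU : D = U
  · subst hDU
    rw [if_pos rfl, Finset.sum_eq_single ∅]
    · rw [Finset.card_empty, pow_zero, one_mul, ind_pos]
      unfold sp
      rw [Finset.coe_empty, Set.image_empty, span_empty, sup_bot_eq]
    · intro Y hY hne
      rw [Finset.mem_powerset] at hY
      obtain ⟨t, ht⟩ := Finset.nonempty_iff_ne_empty.2 hne
      rw [ind_neg, mul_zero]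
      intro h
      exact ((mem_TN v).1 (hY ht)).2 (h (mem_sup_right (subset_span ⟨t, ht, rfl⟩)))
    · intro h
      exact absurd (Finset.empty_mem_powerset _) h
  · rw [if_neg hDU]
    by_cases hle : D ≤ U
    · have hnle : ¬ U ≤ D := fun h => hDU (le_antisymm hle h)
      obtain ⟨t, ht, h1, h2⟩ := hT.exists_point v hU hnle
      refine cancel (TN v T D) t ((mem_TN v).2 ⟨ht, h2⟩)
        (fun Y => ind (D ⊔ sp K v (Y : Set ℕ)) U) ?_
      intro Y _ _
      have h3 : ind (D ⊔ sp K v ((insert t Y : Finset ℕ) : Set ℕ)) U =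
          ind (D ⊔ sp K v (Y : Set ℕ)) U * ind (span K {v t}) U := by
        rw [sp_insert, ← sup_assoc, ind_sup]
      have h4 : ind (span K {v t}) U = 1 := by
        apply ind_pos
        rw [span_le, Set.singleton_subset_iff]
        exact h1
      simp only [h3, h4, mul_one]
    · refine Finset.sum_eq_zero fun Y _ => ?_
      rw [ind_neg, mul_zero]
      intro h
      exact hle (le_sup_left.trans h)

open Classical in
/-- the flats -/
noncomputable def Fl (K : Type*) [Field K] {V : Type*} [AddCommGroup V] [Module K V]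
    (v : ℕ → V) (T : Finset ℕ) : Finset (Submodule K V) :=
  T.powerset.image (fun S : Finset ℕ => sp K v (S : Set ℕ))

theorem le_of_mem_Fl {U : Submodule K V} (h : U ∈ Fl K v T) : U ≤ sp K v (T : Set ℕ) := by
  classical
  unfold Fl at h
  obtain ⟨S, hS, rfl⟩ := Finset.mem_image.1 h
  exact sp_mono v (by exact_mod_cast Finset.mem_powerset.1 hS)

theorem Full.mem_Fl (hT : Full (K := K) v T) {U : Submodule K V}
    (hU : U ≤ sp K v (T : Set ℕ)) : U ∈ Fl K v T := by
  classical
  unfold Fl
  refine Finset.mem_image.2 ⟨TU v T U, Finset.mem_powerset.2 ?_, hT.sp_TU v hU⟩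
  exact fun t ht => ((mem_TU v).1 ht).1

/-- the weights expand the powers -/
theorem Full.weights (hT : Full (K := K) v T) (x : ℝ) :
    ∀ (k : ℕ) (D : Submodule K V), D ≤ sp K v (T : Set ℕ) →
      finrank K (sp K v (T : Set ℕ)) - finrank K D = k →
      x ^ (finrank K (sp K v (T : Set ℕ)) - finrank K D) =
        ∑ U ∈ Fl K v T, W v T U x * ind D U := by
  classical
  intro k
  induction k using Nat.strong_induction_on with
  | _ k ih =>
    intro D hD hk
    -- the two signed sums agree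
    have h1 : ∑ Y ∈ (TN v T D).powerset, (-1 : ℝ) ^ Y.card *
        (∑ U ∈ Fl K v T, W v T U x * ind (D ⊔ sp K v (Y : Set ℕ)) U) = W v T D x := by
      simp only [Finset.mul_sum]
      rw [Finset.sum_comm]
      have h2 : ∀ U ∈ Fl K v T, ∑ Y ∈ (TN v T D).powerset, (-1 : ℝ) ^ Y.card *
          (W v T U x * ind (D ⊔ sp K v (Y : Set ℕ)) U) =
          W v T U x * (if D = U then 1 else 0) := by
        intro U hU
        rw [← hT.ind_sum v (D := D) (le_of_mem_Fl v hU), Finset.mul_sum]
        refine Finset.sum_congr rfl fun Y _ => ?_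
        ring
      rw [Finset.sum_congr rfl h2, Finset.sum_eq_single D]
      · rw [if_pos rfl, mul_one]
      · intro U _ hne
        rw [if_neg (Ne.symm hne), mul_zero]
      · intro h
        exact absurd (hT.mem_Fl v hD) h
    have h3 : ∑ Y ∈ (TN v T D).powerset, (-1 : ℝ) ^ Y.card *
        (∑ U ∈ Fl K v T, W v T U x * ind (D ⊔ sp K v (Y : Set ℕ)) U) =
        ∑ Y ∈ (TN v T D).powerset, (-1 : ℝ) ^ Y.card *
          x ^ (finrank K (sp K v (T : Set ℕ)) -
            finrank K (D ⊔ sp K v (Y : Set ℕ) : Submodule K V)) := h1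
    have hmem : (∅ : Finset ℕ) ∈ (TN v T D).powerset := Finset.empty_mem_powerset _
    rw [← Finset.add_sum_erase _ _ hmem, ← Finset.add_sum_erase _ _ hmem] at h3
    have h4 : ∀ Y ∈ (TN v T D).powerset.erase ∅, (-1 : ℝ) ^ Y.card *
        (∑ U ∈ Fl K v T, W v T U x * ind (D ⊔ sp K v (Y : Set ℕ)) U) =
        (-1 : ℝ) ^ Y.card * x ^ (finrank K (sp K v (T : Set ℕ)) -
            finrank K (D ⊔ sp K v (Y : Set ℕ) : Submodule K V)) := by
      intro Y hY
      rw [Finset.mem_erase, Finset.mem_powerset] at hY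
      obtain ⟨hne, hsub⟩ := hY
      obtain ⟨t, ht⟩ := Finset.nonempty_iff_ne_empty.2 hne
      have hB : D ⊔ sp K v (Y : Set ℕ) ≤ sp K v (T : Set ℕ) :=
        sup_le hD (sp_mono v (by
          exact_mod_cast hsub.trans (fun t ht => ((mem_TN v).1 ht).1)))
      have hlt : D < D ⊔ sp K v (Y : Set ℕ) := by
        refine lt_of_le_of_ne le_sup_left ?_
        intro h
        apply ((mem_TN v).1 (hsub ht)).2
        rw [h]
        exact mem_sup_right (subset_span ⟨t, ht, rfl⟩)
      have h5 := finrank_lt_finrank_of_lt hlt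
      have h6 := finrank_mono hB
      rw [ih (finrank K (sp K v (T : Set ℕ)) -
        finrank K (D ⊔ sp K v (Y : Set ℕ) : Submodule K V)) (by omega) _ hB rfl]
    rw [Finset.sum_congr rfl h4] at h3
    have h7 := add_right_cancel h3
    have h8 : D ⊔ sp K v ((∅ : Finset ℕ) : Set ℕ) = D := by
      unfold sp
      rw [Finset.coe_empty, Set.image_empty, span_empty, sup_bot_eq]
    rw [h8, Finset.card_empty, pow_zero, one_mul, one_mul] at h7
    exact h7.symm

end general

/-! ### the matroids -/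

section matroids

variable {K : Type} [Field K]

/-- `N` is represented by the vectors `v`. -/
def Rep {n : ℕ} (v : ℕ → (Fin n → K)) (N : Matroid ℕ) : Prop :=
  ∀ I : Set ℕ, N.Indep I ↔ (I ⊆ N.E ∧ LinearIndependent K (fun x : I => v x))

private theorem s_bdd (M : Matroid ℕ) (X : Set ℕ) (hX : X.Finite) :
    BddAbove {n : ℕ | ∃ I ⊆ X, M.Indep I ∧ I.ncard = n} := by
  refine ⟨X.ncard, ?_⟩
  rintro n ⟨I, hIX, _, rfl⟩
  exact Set.ncard_le_ncard hIX hX

private theorem s_ge (M : Matroid ℕ) (X : Set ℕ) (hX : X.Finite) (I : Set ℕ) (hI : M.Indep I)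
    (hIX : I ⊆ X) : I.ncard ≤ rks M X :=
  le_csSup (s_bdd M X hX) ⟨I, hIX, hI, rfl⟩

private theorem s_le (M : Matroid ℕ) (X : Set ℕ) (k : ℕ)
    (h : ∀ I ⊆ X, M.Indep I → I.ncard ≤ k) : rks M X ≤ k := by
  refine csSup_le ⟨0, ∅, Set.empty_subset _, M.empty_indep, Set.ncard_empty _⟩ ?_
  rintro n ⟨J, hJX, hJ, rfl⟩
  exact h J hJX hJ

private theorem s_basis (M : Matroid ℕ) (X I : Set ℕ) (hX : X.Finite) (hI : M.IsBasis' I X) :
    rks M X = I.ncard := by
  apply le_antisymm
  · apply s_le
    intro J hJX hJ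
    have h2 := hJ.encard_le_eRk_of_subset hJX
    rw [hI.eRk_eq_encard, ← (hX.subset hJX).cast_ncard_eq,
      ← (hX.subset hI.subset).cast_ncard_eq] at h2
    exact_mod_cast h2
  · exact s_ge M X hX I hI.indep hI.subset

private theorem s_contract (M : Matroid ℕ) (G B : Set ℕ) (hG : G.Finite) (hB : B.Finite)
    (hd : Disjoint G B) : rks (M.contract G) B = rks M (G ∪ B) - rks M G := by
  obtain ⟨I, hI⟩ := M.exists_isBasis' G
  have hIf : I.Finite := hG.subset hI.subset
  have hr := s_basis M G I hG hI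
  obtain ⟨K, hK, hIK⟩ := hI.indep.subset_isBasis'_of_subset
    (hI.subset.trans (Set.subset_union_left (t := B)))
  have hKf : K.Finite := (hG.union hB).subset hK.subset
  have hr2 := s_basis M (G ∪ B) K (hG.union hB) hK
  rw [hr, hr2]
  apply le_antisymm
  · apply s_le
    intro J hJB hJ
    rw [hI.contract_indep_iff] at hJ
    have hJf : J.Finite := hB.subset hJB
    have h1 := s_ge M (G ∪ B) (hG.union hB) (J ∪ I) hJ.1
      (Set.union_subset (hJB.trans Set.subset_union_right) (hI.subset.trans Set.subset_union_left))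
    have h2 : Disjoint J I := (Set.disjoint_of_subset hI.subset hJB hd).symm
    rw [Set.ncard_union_eq h2 hJf hIf, hr2] at h1
    omega
  · have hKG : K ∩ G = I := by
      symm
      refine hI.eq_of_subset_indep (hK.indep.subset Set.inter_subset_left) ?_
        Set.inter_subset_right
      exact Set.subset_inter hIK hI.subset
    have h1 : K \ I ⊆ B := by
      intro e he
      rcases hK.subset he.1 with h | h
      · exact absurd (hKG ▸ ⟨he.1, h⟩ : e ∈ I) he.2
      · exact h
    have h2 : (M.contract G).Indep (K \ I) := by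
      rw [hI.contract_indep_iff, Set.sdiff_union_of_subset hIK]
      exact ⟨hK.indep, Set.disjoint_of_subset_right h1 hd⟩
    have h3 := s_ge (M.contract G) B hB (K \ I) h2 h1
    rwa [Set.ncard_sdiff hIK hIf] at h3

private theorem s_delete (M : Matroid ℕ) (Y X : Set ℕ) (hd : Disjoint X Y) :
    rks (M.delete Y) X = rks M X := by
  unfold rks
  congr 1
  ext n
  constructor
  · rintro ⟨I, hIX, hI, hn⟩
    rw [Matroid.delete_indep_iff] at hI
    exact ⟨I, hIX, hI.1, hn⟩
  · rintro ⟨I, hIX, hI, hn⟩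
    refine ⟨I, hIX, ?_, hn⟩
    rw [Matroid.delete_indep_iff]
    exact ⟨hI, Set.disjoint_of_subset_left hIX hd⟩

theorem minor_chf {n : ℕ} (v : ℕ → (Fin n → K)) {N : Matroid ℕ} (h : Rep v N)
    (hfin : N.E.Finite) (G D : Set ℕ) (hG : G ⊆ N.E) (E' : Finset ℕ)
    (hE' : (E' : Set ℕ) = (N.E \ G) \ D) (x : ℝ) :
    chf ((N.contract G).delete D) E' x = ∑ X ∈ E'.powerset, (-1 : ℝ) ^ X.card *
      x ^ (finrank K (sp K v (E' : Set ℕ) ⊔ sp K v G :
          Submodule K (Fin n → K)) -
        finrank K (sp K v (X : Set ℕ) ⊔ sp K v G :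
          Submodule K (Fin n → K))) := by
  have hGf : G.Finite := hfin.subset hG
  have key2 : ∀ X : Finset ℕ, X ⊆ E' → rks ((N.contract G).delete D) (X : Set ℕ) =
      finrank K (sp K v (X : Set ℕ) ⊔ sp K v G :
          Submodule K (Fin n → K)) - rks N G := by
    intro X hX
    have hX' : (X : Set ℕ) ⊆ (N.E \ G) \ D := by
      rw [← hE']
      exact_mod_cast hX
    have d1 : Disjoint (X : Set ℕ) D := by
      rw [Set.disjoint_left]
      intro e he
      exact (hX' he).2
    have d2 : Disjoint G (X : Set ℕ) := by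
      rw [Set.disjoint_right]
      intro e he
      exact (hX' he).1.2
    rw [s_delete _ _ _ d1, s_contract N G X hGf X.finite_toSet d2,
      D2.rks_eq_finrank K v h (G ∪ X) (hGf.union X.finite_toSet)
        (Set.union_subset hG (fun e he => (hX' he).1.1))]
    rw [sup_comm, ← sp_union]
    rfl
  have hle : ∀ X : Finset ℕ, rks N G ≤ finrank K
      (sp K v (X : Set ℕ) ⊔ sp K v G :
          Submodule K (Fin n → K)) := by
    intro X
    rw [D2.rks_eq_finrank K v h G hGf hG]
    exact finrank_mono le_sup_right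
  unfold chf
  refine Finset.sum_congr rfl fun X hX => ?_
  have e1 : ((N.contract G).delete D).E = (E' : Set ℕ) := by
    rw [Matroid.delete_ground, Matroid.contract_ground, hE']
  rw [e1, key2 E' (Finset.Subset.refl _), key2 X (Finset.mem_powerset.1 hX)]
  have h1 := hle X
  have h2 := hle E'
  congr 2
  omega

theorem self_chf {n : ℕ} (v : ℕ → (Fin n → K)) {N : Matroid ℕ} (h : Rep v N)
    (E' : Finset ℕ) (hE' : (E' : Set ℕ) = N.E) (x : ℝ) :
    chf N E' x = ∑ X ∈ E'.powerset, (-1 : ℝ) ^ X.card *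
      x ^ (finrank K (sp K v (E' : Set ℕ)) -
        finrank K (sp K v (X : Set ℕ))) := by
  have hfin : N.E.Finite := by
    rw [← hE']
    exact E'.finite_toSet
  unfold chf
  refine Finset.sum_congr rfl fun X hX => ?_
  have hX' : (X : Set ℕ) ⊆ N.E := by
    rw [← hE']
    exact_mod_cast Finset.mem_powerset.1 hX
  rw [D2.rks_eq_finrank K v h N.E hfin (Set.Subset.refl _),
    D2.rks_eq_finrank K v h X X.finite_toSet hX', ← hE']
  rfl

theorem indep_sing {n : ℕ} {v : ℕ → (Fin n → K)} {N : Matroid ℕ} (h : Rep v N) (e : ℕ) :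
    N.Indep {e} ↔ e ∈ N.E ∧ v e ≠ 0 := by
  rw [h {e}, Set.singleton_subset_iff]
  refine and_congr_right fun _ => ?_
  rw [linearIndependent_unique_iff]
  rfl

/-- the points of a contraction -/
theorem minor_indep_sing {n : ℕ} {v : ℕ → (Fin n → K)} {N : Matroid ℕ} (h : Rep v N)
    (hfin : N.E.Finite) (G D : Set ℕ) (hG : G ⊆ N.E) (e : ℕ) (he : e ∈ (N.E \ G) \ D)
    (hv : v e ∉ sp K v G) : ((N.contract G).delete D).Indep {e} := by
  by_contra hcon
  have hGf : G.Finite := hfin.subset hG
  have d1 : Disjoint ({e} : Set ℕ) D := Set.disjoint_singleton_left.2 he.2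
  have d2 : Disjoint G ({e} : Set ℕ) := Set.disjoint_singleton_right.2 he.1.2
  have hsub : G ∪ {e} ⊆ N.E := Set.union_subset hG (Set.singleton_subset_iff.2 he.1.1)
  have h1 : rks ((N.contract G).delete D) {e} = 0 := by
    apply Nat.le_zero.1
    apply s_le
    intro I hI hI2
    rcases Set.subset_singleton_iff_eq.1 hI with rfl | rfl
    · simp
    · exact absurd hI2 hcon
  rw [s_delete _ _ _ d1, s_contract N G {e} hGf (Set.finite_singleton e) d2,
    D2.rks_eq_finrank K v h (G ∪ {e}) (hGf.union (Set.finite_singleton e)) hsub,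
    D2.rks_eq_finrank K v h G hGf hG] at h1
  have h2 : span K (v '' (G ∪ {e})) = span K (v '' G) ⊔ span K {v e} := by
    rw [Set.image_union, span_union, Set.image_singleton]
  have h3 := finrank_sup_singleton (span K (v '' G)) (v e) hv
  rw [h2, h3] at h1
  omega

/-- the loops of a contraction -/
theorem minor_indep_not_mem {n : ℕ} {v : ℕ → (Fin n → K)} {N : Matroid ℕ} (h : Rep v N)
    (hfin : N.E.Finite) (G D : Set ℕ) (hG : G ⊆ N.E) (e : ℕ)
    (hi : ((N.contract G).delete D).Indep {e}) : v e ∉ sp K v G := by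
  intro hv
  have he : e ∈ ((N.contract G).delete D).E := hi.subset_ground rfl
  rw [Matroid.delete_ground, Matroid.contract_ground] at he
  have hGf : G.Finite := hfin.subset hG
  have d1 : Disjoint ({e} : Set ℕ) D := Set.disjoint_singleton_left.2 he.2
  have d2 : Disjoint G ({e} : Set ℕ) := Set.disjoint_singleton_right.2 he.1.2
  have hsub : G ∪ {e} ⊆ N.E := Set.union_subset hG (Set.singleton_subset_iff.2 he.1.1)
  have h1 : 1 ≤ rks ((N.contract G).delete D) {e} := by
    have h2 := s_ge ((N.contract G).delete D) {e} (Set.finite_singleton e) {e} hi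
      (Set.Subset.refl _)
    rwa [Set.ncard_singleton] at h2
  rw [s_delete _ _ _ d1, s_contract N G {e} hGf (Set.finite_singleton e) d2,
    D2.rks_eq_finrank K v h (G ∪ {e}) (hGf.union (Set.finite_singleton e)) hsub,
    D2.rks_eq_finrank K v h G hGf hG] at h1
  have h2 : span K (v '' (G ∪ {e})) = span K (v '' G) ⊔ span K {v e} := by
    rw [Set.image_union, span_union, Set.image_singleton]
  have h3 : span K (v '' G) ⊔ span K {v e} = span K (v '' G) := sup_singleton_of_mem _ _ hv
  rw [h2, h3] at h1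
  omega

/-- `M` is the sum of the matroids `M₁` and `M₂` along a full subspace. -/
def IsSum (M M₁ M₂ : Matroid ℕ) : Prop :=
  ∃ (K : Type) (_ : Field K) (n : ℕ) (v : ℕ → (Fin n → K)), Rep v M ∧ Rep v M₁ ∧ Rep v M₂ ∧
    M.E = (M₁.E ∪ M₂.E) \ (M₁.E ∩ M₂.E) ∧
    span K (v '' M₁.E) ⊓ span K (v '' M₂.E) = span K (v '' (M₁.E ∩ M₂.E)) ∧
    ∀ y ∈ span K (v '' (M₁.E ∩ M₂.E)), y ≠ 0 → ∃ t ∈ M₁.E ∩ M₂.E, ∃ r : K, y = r • v t

end matroids

end GS

end Pool.Agent.Lib.MP_4a8162_co
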