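import Pool.Agent.Lib.MP_4a8162_co.RS.Min
import Pool.Agent.Lib.MP_4a8162_co.RS.Crit
import Pool.Agent.Lib.MP_4a8162_co.FB.Main

set_option autoImplicit false

/-! The classes from which the sums are built. -/

namespace Pool.Agent.Lib.MP_4a8162_co

namespace GS

private theorem m_ge (M : Matroid ℕ) (X : Set ℕ) (hX : X.Finite) (I : Set ℕ) (hI : M.Indep I)
    (hIX : I ⊆ X) : I.ncard ≤ rks M X := by
  refine le_csSup ⟨X.ncard, ?_⟩ ⟨I, hIX, hI, rfl⟩
  rintro n ⟨J, hJX, _, rfl⟩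
  exact Set.ncard_le_ncard hJX hX

private theorem m_le (M : Matroid ℕ) (X : Set ℕ) (k : ℕ)
    (h : ∀ I ⊆ X, M.Indep I → I.ncard ≤ k) : rks M X ≤ k := by
  refine csSup_le ⟨0, ∅, Set.empty_subset _, M.empty_indep, Set.ncard_empty _⟩ ?_
  rintro n ⟨J, hJX, hJ, rfl⟩
  exact h J hJX hJ

private theorem m_basis (M : Matroid ℕ) (X I : Set ℕ) (hX : X.Finite) (hI : M.IsBasis' I X) :
    rks M X = I.ncard := by
  apply le_antisymm
  · apply m_le
    intro J hJX hJ
    have h2 := hJ.encard_le_eRk_of_subset hJX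
    rw [hI.eRk_eq_encard, ← (hX.subset hJX).cast_ncard_eq,
      ← (hX.subset hI.subset).cast_ncard_eq] at h2
    exact_mod_cast h2
  · exact m_ge M X hX I hI.indep hI.subset

private theorem m_cocircuit {M : Matroid ℕ} (hM : M.Finite) {D : Set ℕ}
    (hD : M.IsCocircuit D) : D ⊆ M.E ∧ D.Finite ∧ rks M (M.E \ D) < rks M M.E := by
  have hDE := hD.subset_ground
  have hEf := hM.ground_finite
  refine ⟨hDE, hEf.subset hDE, ?_⟩
  by_contra hcon
  obtain ⟨I, hI⟩ := M.exists_isBasis' (M.E \ D)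
  have h1 := m_basis M (M.E \ D) I (hEf.subset Set.sdiff_subset) hI
  obtain ⟨B, hB, hIB⟩ := hI.indep.exists_isBase_superset
  have hBf : B.Finite := hEf.subset hB.subset_ground
  have h2 := m_ge M M.E hEf B hB.indep hB.subset_ground
  have h3 : rks M (M.E \ D) ≤ rks M M.E :=
    m_le M _ _ fun J hJ hJi => m_ge M M.E hEf J hJi (hJ.trans Set.sdiff_subset)
  have h6 : rks M M.E ≤ B.ncard := by
    refine m_le M _ _ fun J hJ hJi => ?_
    obtain ⟨B', hB', hJB'⟩ := hJi.exists_isBase_superset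
    rw [← hB'.ncard_eq_ncard_of_isBase hB]
    exact Set.ncard_le_ncard hJB' (hEf.subset hB'.subset_ground)
  have h4 : I = B := Set.eq_of_subset_of_ncard_le hIB (by omega) hBf
  rw [Matroid.isCocircuit_iff_minimal] at hD
  obtain ⟨z, hz1, hz2⟩ := hD.prop B hB
  exact (hI.subset (h4 ▸ hz2)).2 hz1

/-- cographic matroids -/
theorem pos_cographic : ∃ T : ℝ, 0 < T ∧ ∀ x : ℝ, T ≤ x → ∀ M : Matroid ℕ, IsGraphic M.dual →
    Pos x M := by
  obtain ⟨T, hT, h2⟩ := FB.char_pos FB.mnf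
  refine ⟨max T 1, lt_of_lt_of_le one_pos (le_max_right _ _), ?_⟩
  intro x hx M hM X Y hl E hE
  have h1 : IsGraphic ((M.contract X).delete Y).dual := by
    rw [Matroid.dual_delete, Matroid.dual_contract]
    exact graphic_contract (graphic_delete hM X) Y
  obtain ⟨hf, m, ends, h⟩ := h1
  have hf' : ((M.contract X).delete Y).Finite := ⟨hf.ground_finite⟩
  exact h2 x ((le_max_left _ _).trans hx) m _ hf' ends h hl E hE

/-- matroids without large roots -/
theorem pos_bounded {d x : ℝ} (hx : d < x) {M : Matroid ℕ}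
    (h : ∀ X Y : Set ℕ,
      (∀ e ∈ ((M.contract X).delete Y).E, ((M.contract X).delete Y).Indep {e}) →
      ∀ E : Finset ℕ, (E : Set ℕ) = ((M.contract X).delete Y).E → ∀ y : ℝ, d < y →
        chf ((M.contract X).delete Y) E y ≠ 0) : Pos x M := by
  intro X Y hl E hE
  by_contra hcon
  rcases (not_lt.1 hcon).lt_or_eq with h3 | h3
  · obtain ⟨y, hy, hy0⟩ := exists_root_of_chf_neg E hE x h3
    exact h X Y hl E hE y (hx.trans hy) hy0
  · exact h X Y hl E hE x hx h3

/-- minor-closed classes in which the simple members have a small cocircuit or are known -/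
theorem pos_cocircuit {d x : ℝ} (hx : d < x) (C : Matroid ℕ → Prop)
    (hfin : ∀ M : Matroid ℕ, C M → M.Finite)
    (hmin : ∀ M : Matroid ℕ, C M → ∀ X Y : Set ℕ, C ((M.contract X).delete Y))
    (h : ∀ M : Matroid ℕ, C M → M.E.Nonempty → (∀ e ∈ M.E, ∀ f ∈ M.E, M.Indep {e, f}) →
      (∃ D : Set ℕ, M.IsCocircuit D ∧ (D.ncard : ℝ) ≤ d) ∨ Pos x M)
    (M : Matroid ℕ) (hM : C M) : Pos x M := by
  intro X Y hl E hE
  refine chf_pos_gen C d hfin ?_ ?_ x hx ?_ _ (hmin M hM X Y) hl E hE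
  · intro N hN e _
    have h3 := hmin N hN ∅ {e}
    rwa [Matroid.contract_empty] at h3
  · intro N hN e _
    have h3 := hmin N hN {e} ∅
    rwa [Matroid.delete_empty] at h3
  · intro N hN hne hlN hs
    rcases h N hN hne hs with ⟨D, hD, hDc⟩ | hpos
    · left
      obtain ⟨h3, h4, h5⟩ := m_cocircuit (hfin N hN) hD
      refine ⟨h4.toFinset, by rwa [h4.coe_toFinset], ?_, by rwa [h4.coe_toFinset]⟩
      rwa [Set.ncard_eq_toFinset_card D h4] at hDc
    · right
      intro EN hEN _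
      have h3 := hpos ∅ ∅
      rw [Matroid.contract_empty, Matroid.delete_empty] at h3
      exact h3 hlN EN hEN

end GS

end Pool.Agent.Lib.MP_4a8162_co
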