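import Pool.Agent.Lib.MP_4a8162_co.RS.Gen
import Pool.Agent.Lib.MP_4a8162_co.Root
import Pool.Agent.Lib.MP_4a8162_co.Minor

set_option autoImplicit false
set_option linter.unusedSectionVars false

/-! Sums along full subspaces and minors. -/

namespace Pool.Agent.Lib.MP_4a8162_co

namespace GS

open Module Submodule Finset

section vectors

variable {K : Type*} [Field K] {V : Type*} [AddCommGroup V] [Module K V] [FiniteDimensional K V]
  (v : ℕ → V)

/-- positivity of the sum from positivity of the parts -/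
theorem gsum {T : Finset ℕ} (hT : Full (K := K) v T) (D1 D2 : Finset ℕ) (hd : Disjoint D1 D2)
    (d1 : Disjoint D1 T) (d2 : Disjoint D2 T)
    (hL : (sp K v (D1 : Set ℕ) ⊔ sp K v (T : Set ℕ)) ⊓ (sp K v (D2 : Set ℕ) ⊔ sp K v (T : Set ℕ)) =
      sp K v (T : Set ℕ)) (x : ℝ) (hx : 0 < x)
    (hW : ∀ U : Submodule K V, U ≤ sp K v (T : Set ℕ) → 0 < W v T U x)
    (hN : ∀ D : Finset ℕ, (D = D1 ∨ D = D2) → ∀ U : Submodule K V, U ≤ sp K v (T : Set ℕ) →
      0 ≤ ∑ X ∈ (D ∪ TN v T U).powerset, (-1 : ℝ) ^ X.card *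
        x ^ (finrank K (sp K v (D : Set ℕ) ⊔ sp K v (T : Set ℕ) : Submodule K V) -
          finrank K (sp K v (X : Set ℕ) ⊔ U : Submodule K V)))
    (hN0 : ∀ D : Finset ℕ, (D = D1 ∨ D = D2) →
      0 < ∑ X ∈ (D ∪ TN v T (⊥ : Submodule K V)).powerset, (-1 : ℝ) ^ X.card *
        x ^ (finrank K (sp K v (D : Set ℕ) ⊔ sp K v (T : Set ℕ) : Submodule K V) -
          finrank K (sp K v (X : Set ℕ) ⊔ (⊥ : Submodule K V) : Submodule K V))) :
    0 < ∑ X ∈ (D1 ∪ D2).powerset, (-1 : ℝ) ^ X.card *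
      x ^ (finrank K (sp K v ((D1 ∪ D2 : Finset ℕ) : Set ℕ)) -
        finrank K (sp K v (X : Set ℕ))) := by
  classical
  have hdd : ∀ D : Finset ℕ, (D = D1 ∨ D = D2) → Disjoint D T := by
    rintro D (rfl | rfl)
    · exact d1
    · exact d2
  have n1 : ∀ D : Finset ℕ, (D = D1 ∨ D = D2) → ∀ U : Submodule K V,
      U ≤ sp K v (T : Set ℕ) → 0 ≤ Nn K v D (sp K v (T : Set ℕ))
        (finrank K (sp K v (D : Set ℕ) ⊔ sp K v (T : Set ℕ) : Submodule K V)) U x := by
    intro D hD U hU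
    have h1 := hN D hD U hU
    rw [hT.side v hU D (hdd D hD) _ le_rfl] at h1
    exact nonneg_of_mul_nonneg_right h1 (hW U hU)
  have n2 : ∀ D : Finset ℕ, (D = D1 ∨ D = D2) → 0 < Nn K v D (sp K v (T : Set ℕ))
        (finrank K (sp K v (D : Set ℕ) ⊔ sp K v (T : Set ℕ) : Submodule K V)) ⊥ x := by
    intro D hD
    have h1 := hN0 D hD
    rw [hT.side v bot_le D (hdd D hD) _ le_rfl] at h1
    exact (pos_iff_pos_of_mul_pos h1).1 (hW ⊥ bot_le)
  set V1 : Submodule K V := sp K v (D1 : Set ℕ) ⊔ sp K v (T : Set ℕ) with hV1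
  set V2 : Submodule K V := sp K v (D2 : Set ℕ) ⊔ sp K v (T : Set ℕ) with hV2
  set L : Submodule K V := sp K v (T : Set ℕ) with hLdef
  have hpos : 0 < ∑ i : {U : Submodule K V // U ∈ Fl K v T}, W v T (i : Submodule K V) x *
      Nn K v D1 L (finrank K V1) (i : Submodule K V) x *
      Nn K v D2 L (finrank K V2) (i : Submodule K V) x := by
    refine Finset.sum_pos' ?_ ?_
    · rintro ⟨U, hU⟩ _
      have hU' := le_of_mem_Fl v hU
      exact mul_nonneg (mul_nonneg (hW U hU').le (n1 D1 (Or.inl rfl) U hU'))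
        (n1 D2 (Or.inr rfl) U hU')
    · refine ⟨⟨(⊥ : Submodule K V), hT.mem_Fl v bot_le⟩, Finset.mem_univ _, ?_⟩
      exact mul_pos (mul_pos (hW ⊥ bot_le) (n2 D1 (Or.inl rfl))) (n2 D2 (Or.inr rfl))
  have hw : ∀ D : Submodule K V, D ≤ L → x ^ (finrank K L - finrank K D) =
      ∑ i : {U : Submodule K V // U ∈ Fl K v T}, W v T (i : Submodule K V) x *
        ind D (i : Submodule K V) := by
    intro D hD
    rw [hT.weights v x _ D hD rfl]
    exact (Finset.sum_coe_sort (Fl K v T) (fun U : Submodule K V => W v T U x * ind D U)).symm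
  rw [← sum_formula v hL D1 D2 hd le_sup_left le_sup_left
    (fun i : {U : Submodule K V // U ∈ Fl K v T} => (i : Submodule K V))
    (fun i => W v T (i : Submodule K V) x) x hw] at hpos
  have hr := finrank_sup_add_finrank_inf_eq V1 V2
  rw [hL] at hr
  have hsub : sp K v ((D1 ∪ D2 : Finset ℕ) : Set ℕ) ≤ V1 ⊔ V2 := by
    rw [Finset.coe_union, sp_union]
    exact sup_le_sup le_sup_left le_sup_left
  have hrho := finrank_mono hsub
  have hL1 : finrank K L ≤ finrank K V1 := finrank_mono (hL ▸ inf_le_left)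
  have e1 : ∑ X ∈ (D1 ∪ D2).powerset, (-1 : ℝ) ^ X.card *
      x ^ (finrank K V1 + finrank K V2 - finrank K L - finrank K (sp K v (X : Set ℕ))) =
      x ^ (finrank K V1 + finrank K V2 - finrank K L -
        finrank K (sp K v ((D1 ∪ D2 : Finset ℕ) : Set ℕ))) *
      ∑ X ∈ (D1 ∪ D2).powerset, (-1 : ℝ) ^ X.card *
        x ^ (finrank K (sp K v ((D1 ∪ D2 : Finset ℕ) : Set ℕ)) -
          finrank K (sp K v (X : Set ℕ))) := by
    rw [Finset.mul_sum]
    refine Finset.sum_congr rfl fun X hX => ?_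
    have h3 : finrank K (sp K v (X : Set ℕ)) ≤
        finrank K (sp K v ((D1 ∪ D2 : Finset ℕ) : Set ℕ)) :=
      finrank_mono (sp_mono v (by exact_mod_cast Finset.mem_powerset.1 hX))
    have h4 : finrank K V1 + finrank K V2 - finrank K L - finrank K (sp K v (X : Set ℕ)) =
        (finrank K V1 + finrank K V2 - finrank K L -
          finrank K (sp K v ((D1 ∪ D2 : Finset ℕ) : Set ℕ))) +
        (finrank K (sp K v ((D1 ∪ D2 : Finset ℕ) : Set ℕ)) -
          finrank K (sp K v (X : Set ℕ))) := by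
      omega
    rw [h4, pow_add]
    ring
  rw [e1] at hpos
  exact (pos_iff_pos_of_mul_pos hpos).1 (pow_pos hx _)

variable {V' : Type*} [AddCommGroup V'] [Module K V'] [FiniteDimensional K V']
  (π : V →ₗ[K] V')

theorem finrank_map_ker (A : Submodule K V) :
    finrank K (A.map π) + finrank K (LinearMap.ker π) =
      finrank K (A ⊔ LinearMap.ker π : Submodule K V) := by
  set B : Submodule K V := A ⊔ LinearMap.ker π with hB
  have h1 := LinearMap.finrank_range_add_finrank_ker (π.domRestrict B)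
  have h2 : LinearMap.range (π.domRestrict B) = A.map π := by
    rw [LinearMap.range_domRestrict, hB, Submodule.map_sup,
      (LinearMap.le_ker_iff_map (f := π) (p := LinearMap.ker π)).1 le_rfl, sup_bot_eq]
  have h3 : finrank K (LinearMap.ker (π.domRestrict B)) = finrank K (LinearMap.ker π) := by
    rw [LinearMap.ker_domRestrict]
    exact LinearEquiv.finrank_eq (Submodule.comapSubtypeEquivOfLe le_sup_right)
  rw [h2, h3] at h1
  exact h1

theorem sp_comp (S : Set ℕ) : sp K (fun e => π (v e)) S = (sp K v S).map π := by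
  unfold sp
  rw [Submodule.map_span, ← Set.image_comp]
  rfl

end vectors

section matroids

variable {K : Type} [Field K]

/-- all loopless minors of `M` have a positive characteristic polynomial at `x` -/
def Pos (x : ℝ) (M : Matroid ℕ) : Prop :=
  ∀ X Y : Set ℕ, (∀ e ∈ ((M.contract X).delete Y).E, ((M.contract X).delete Y).Indep {e}) →
    ∀ E : Finset ℕ, (E : Set ℕ) = ((M.contract X).delete Y).E →
      0 < chf ((M.contract X).delete Y) E x

theorem Pos.nonneg {x : ℝ} {M : Matroid ℕ} (h : Pos x M) (X Y : Set ℕ) (E : Finset ℕ)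
    (hE : (E : Set ℕ) = ((M.contract X).delete Y).E) :
    0 ≤ chf ((M.contract X).delete Y) E x := by
  by_cases hl : ∀ e ∈ ((M.contract X).delete Y).E, ((M.contract X).delete Y).Indep {e}
  · exact (h X Y hl E hE).le
  · push Not at hl
    obtain ⟨e, he, hne⟩ := hl
    rw [← hE] at he
    rw [chf_loop E hE e (by exact_mod_cast he) hne]

theorem Full.map {n : ℕ} {v : ℕ → (Fin n → K)} {T : Finset ℕ} (hT : Full (K := K) v T)
    {V' : Type*} [AddCommGroup V'] [Module K V'] [FiniteDimensional K V']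
    (π : (Fin n → K) →ₗ[K] V') : Full (K := K) (fun e => π (v e)) T := by
  intro y hy hy0
  rw [sp_comp] at hy
  obtain ⟨a, ha, rfl⟩ := hy
  obtain ⟨t, ht, r, e⟩ := hT a ha (fun h => hy0 (by rw [h, map_zero]))
  exact ⟨t, ht, r, by rw [e, map_smul]⟩

section one

variable {n : ℕ} {v : ℕ → (Fin n → K)} {N : Matroid ℕ} (h : Rep v N) (hfin : N.E.Finite)
  {T : Finset ℕ} (hTE : (T : Set ℕ) ⊆ N.E) (hT : Full (K := K) v T) {X1 : Set ℕ}
  (hX1 : X1 ⊆ N.E) (hXT : Disjoint X1 (T : Set ℕ)) {Q : Submodule K (Fin n → K)}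
  (hQ : sp K v N.E ⊓ Q ≤ sp K v (T : Set ℕ))
  {V' : Type} [AddCommGroup V'] [Module K V'] [FiniteDimensional K V']
  (π : (Fin n → K) →ₗ[K] V') (hπ : LinearMap.ker π = sp K v X1 ⊔ Q)
  {U : Submodule K V'} (hU : U ≤ sp K (fun e => π (v e)) (T : Set ℕ))

include hTE hT hX1 hQ hπ hU in
theorem key_rank (S : Set ℕ) (hS : S ⊆ N.E) :
    finrank K (sp K (fun e => π (v e)) S ⊔ U : Submodule K V') + finrank K (LinearMap.ker π) +
      finrank K (sp K v N.E ⊓ Q : Submodule K (Fin n → K)) =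
    finrank K (sp K v S ⊔ sp K v (X1 ∪ (TU (fun e => π (v e)) T U : Finset ℕ)) :
      Submodule K (Fin n → K)) + finrank K Q := by
  have hT' : Full (K := K) (fun e => π (v e)) T := hT.map π
  have hUeq := hT'.sp_TU _ hU
  have hTUT : ((TU (fun e => π (v e)) T U : Finset ℕ) : Set ℕ) ⊆ N.E :=
    fun t ht => hTE (Finset.mem_coe.2 ((mem_TU _).1 (Finset.mem_coe.1 ht)).1)
  set I : Set ℕ := ((TU (fun e => π (v e)) T U : Finset ℕ) : Set ℕ) with hI
  have e1 : sp K (fun e => π (v e)) S ⊔ U = (sp K v S ⊔ sp K v I).map π := by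
    rw [Submodule.map_sup, ← sp_comp, ← sp_comp, hUeq]
  have e2 := finrank_map_ker π (sp K v S ⊔ sp K v I)
  have e3 : (sp K v S ⊔ sp K v I) ⊔ LinearMap.ker π = (sp K v S ⊔ sp K v (X1 ∪ I)) ⊔ Q := by
    rw [hπ, sp_union]
    simp only [sup_assoc, sup_left_comm, sup_comm]
  have hle : sp K v S ⊔ sp K v (X1 ∪ I) ≤ sp K v N.E :=
    sup_le (sp_mono v hS) (sp_mono v (Set.union_subset hX1 hTUT))
  have e4 := finrank_sup_add_finrank_inf_eq (sp K v S ⊔ sp K v (X1 ∪ I)) Q
  have e5 : (sp K v S ⊔ sp K v (X1 ∪ I)) ⊓ Q = sp K v N.E ⊓ Q := by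
    apply le_antisymm
    · exact inf_le_inf hle le_rfl
    · intro y hy
      refine ⟨?_, hy.2⟩
      by_cases hy0 : y = 0
      · rw [hy0]
        exact Submodule.zero_mem _
      · obtain ⟨t, ht, r, e⟩ := hT y (hQ hy) hy0
        have hr : r ≠ 0 := by
          rintro rfl
          exact hy0 (by rw [e, zero_smul])
        have h1 : v t = r⁻¹ • y := by rw [e, smul_smul, inv_mul_cancel₀ hr, one_smul]
        have h2 : v t ∈ LinearMap.ker π := by
          rw [hπ, h1]
          exact Submodule.smul_mem _ _ (mem_sup_right hy.2)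
        have h3 : t ∈ I := by
          rw [hI, Finset.mem_coe, mem_TU]
          refine ⟨ht, ?_⟩
          rw [LinearMap.mem_ker] at h2
          rw [h2]
          exact U.zero_mem
        rw [e]
        refine Submodule.smul_mem _ _ (mem_sup_right ?_)
        exact subset_span ⟨t, Or.inr h3, rfl⟩
  rw [e5] at e4
  rw [e3] at e2
  rw [e1]
  omega

include h hfin hTE hT hX1 hQ hπ hU in
theorem side_chf (E' : Finset ℕ) (D : Set ℕ)
    (hE' : (E' : Set ℕ) =
      (N.E \ (X1 ∪ (TU (fun e => π (v e)) T U : Finset ℕ))) \ D) (x : ℝ) :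
    chf ((N.contract (X1 ∪ (TU (fun e => π (v e)) T U : Finset ℕ))).delete D) E' x =
      ∑ X ∈ E'.powerset, (-1 : ℝ) ^ X.card *
        x ^ (finrank K (sp K (fun e => π (v e)) (E' : Set ℕ) ⊔ U : Submodule K V') -
          finrank K (sp K (fun e => π (v e)) (X : Set ℕ) ⊔ U : Submodule K V')) := by
  have hTUT : ((TU (fun e => π (v e)) T U : Finset ℕ) : Set ℕ) ⊆ N.E :=
    fun t ht => hTE (Finset.mem_coe.2 ((mem_TU _).1 (Finset.mem_coe.1 ht)).1)
  have hG : X1 ∪ ((TU (fun e => π (v e)) T U : Finset ℕ) : Set ℕ) ⊆ N.E :=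
    Set.union_subset hX1 hTUT
  rw [minor_chf v h hfin _ D hG E' hE' x]
  have hE'' : (E' : Set ℕ) ⊆ N.E := by
    rw [hE']
    exact fun e he => he.1.1
  have k1 := key_rank (N := N) hTE hT hX1 hQ π hπ hU (E' : Set ℕ) hE''
  refine Finset.sum_congr rfl fun X hX => ?_
  have hX' : (X : Set ℕ) ⊆ N.E := by
    refine Set.Subset.trans ?_ hE''
    exact_mod_cast Finset.mem_powerset.1 hX
  have k2 := key_rank (N := N) hTE hT hX1 hQ π hπ hU (X : Set ℕ) hX'
  congr 2
  omega

include h hfin hTE hT hX1 hπ hU in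
theorem side_indep (D : Set ℕ) (e : ℕ)
    (he : e ∈ (N.E \ (X1 ∪ (TU (fun e => π (v e)) T U : Finset ℕ))) \ D) (hv : π (v e) ∉ U) :
    ((N.contract (X1 ∪ (TU (fun e => π (v e)) T U : Finset ℕ))).delete D).Indep {e} := by
  have hT' : Full (K := K) (fun e => π (v e)) T := hT.map π
  have hUeq := hT'.sp_TU _ hU
  have hTUT : ((TU (fun e => π (v e)) T U : Finset ℕ) : Set ℕ) ⊆ N.E :=
    fun t ht => hTE (Finset.mem_coe.2 ((mem_TU _).1 (Finset.mem_coe.1 ht)).1)
  refine minor_indep_sing h hfin _ D (Set.union_subset hX1 hTUT) e he ?_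
  intro h1
  apply hv
  have h2 : π (v e) ∈ (sp K v (X1 ∪ ((TU (fun e => π (v e)) T U : Finset ℕ) : Set ℕ))).map π :=
    ⟨_, h1, rfl⟩
  rw [sp_union, Submodule.map_sup, ← sp_comp v π ((TU (fun e => π (v e)) T U : Finset ℕ) : Set ℕ),
    hUeq] at h2
  have h3 : (sp K v X1).map π = ⊥ := by
    rw [← LinearMap.le_ker_iff_map, hπ]
    exact le_sup_left
  rw [h3, bot_sup_eq] at h2
  exact h2

variable {x : ℝ} (hpos : Pos x N)

include h hfin hTE hT hX1 hXT hQ hπ hU hpos in
theorem side_W : 0 < W (fun e => π (v e)) T U x := by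
  classical
  set w : ℕ → V' := fun e => π (v e) with hw
  have hT' : Full (K := K) w T := hT.map π
  have hUeq := hT'.sp_TU _ hU
  set G : Set ℕ := X1 ∪ ((TU w T U : Finset ℕ) : Set ℕ) with hG
  have hsub : ((TN w T U : Finset ℕ) : Set ℕ) ⊆ N.E \ G := by
    intro t ht
    have h1 := (mem_TN w).1 (Finset.mem_coe.1 ht)
    refine ⟨hTE (Finset.mem_coe.2 h1.1), ?_⟩
    rintro (h2 | h2)
    · exact Set.disjoint_left.1 hXT h2 (Finset.mem_coe.2 h1.1)
    · exact h1.2 ((mem_TU w).1 (Finset.mem_coe.1 h2)).2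
  have hE' : ((TN w T U : Finset ℕ) : Set ℕ) =
      (N.E \ G) \ ((N.E \ G) \ ((TN w T U : Finset ℕ) : Set ℕ)) := by
    rw [Set.sdiff_sdiff_right_self]
    exact (Set.inter_eq_right.2 hsub).symm
  have h1 := side_chf h hfin hTE hT hX1 hQ π hπ hU (TN w T U)
    ((N.E \ G) \ ((TN w T U : Finset ℕ) : Set ℕ)) hE' x
  have h2 : 0 < chf ((N.contract G).delete ((N.E \ G) \ ((TN w T U : Finset ℕ) : Set ℕ)))
      (TN w T U) x := by
    refine hpos G _ ?_ _ ?_
    · intro e he
      rw [Matroid.delete_ground, Matroid.contract_ground] at he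
      refine side_indep h hfin hTE hT hX1 π hπ hU _ e he ?_
      rw [← hE'] at he
      exact ((mem_TN w).1 (Finset.mem_coe.1 he)).2
    · rw [Matroid.delete_ground, Matroid.contract_ground]
      exact hE'
  rw [h1] at h2
  have h3 : sp K w ((TN w T U : Finset ℕ) : Set ℕ) ⊔ U = sp K w (T : Set ℕ) := by
    have h5 : sp K w ((TN w T U : Finset ℕ) : Set ℕ) ⊔ sp K w ((TU w T U : Finset ℕ) : Set ℕ) =
        sp K w (T : Set ℕ) := by
      rw [← sp_union, ← Finset.coe_union, TU_union_TN]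
    rwa [hUeq] at h5
  unfold W
  have h4 : ∑ Y ∈ (TN w T U).powerset, (-1 : ℝ) ^ Y.card *
      x ^ (finrank K (sp K w (T : Set ℕ)) -
        finrank K (U ⊔ sp K w (Y : Set ℕ) : Submodule K V')) =
      ∑ Y ∈ (TN w T U).powerset, (-1 : ℝ) ^ Y.card *
      x ^ (finrank K (sp K w ((TN w T U : Finset ℕ) : Set ℕ) ⊔ U : Submodule K V') -
        finrank K (sp K w (Y : Set ℕ) ⊔ U : Submodule K V')) := by
    refine Finset.sum_congr rfl fun Y _ => ?_
    rw [h3, sup_comm U]
  rw [h4]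
  exact h2

include h hfin hTE hT hX1 hXT hQ hπ hU in
theorem side_eq (D : Finset ℕ) (hD : (D : Set ℕ) ⊆ N.E) (hDX : Disjoint X1 (D : Set ℕ))
    (hDT : Disjoint D T) (x : ℝ) :
    ∃ B : Set ℕ, ((D ∪ TN (fun e => π (v e)) T U : Finset ℕ) : Set ℕ) =
      ((N.contract (X1 ∪ (TU (fun e => π (v e)) T U : Finset ℕ))).delete B).E ∧
    chf ((N.contract (X1 ∪ (TU (fun e => π (v e)) T U : Finset ℕ))).delete B)
      (D ∪ TN (fun e => π (v e)) T U) x =
      ∑ X ∈ (D ∪ TN (fun e => π (v e)) T U).powerset, (-1 : ℝ) ^ X.card *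
        x ^ (finrank K (sp K (fun e => π (v e)) (D : Set ℕ) ⊔
            sp K (fun e => π (v e)) (T : Set ℕ) : Submodule K V') -
          finrank K (sp K (fun e => π (v e)) (X : Set ℕ) ⊔ U : Submodule K V')) := by
  classical
  set w : ℕ → V' := fun e => π (v e) with hw
  have hT' : Full (K := K) w T := hT.map π
  have hUeq := hT'.sp_TU _ hU
  set G : Set ℕ := X1 ∪ ((TU w T U : Finset ℕ) : Set ℕ) with hG
  have hsub : ((D ∪ TN w T U : Finset ℕ) : Set ℕ) ⊆ N.E \ G := by
    intro t ht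
    rcases Finset.mem_union.1 (Finset.mem_coe.1 ht) with h1 | h1
    · refine ⟨hD (Finset.mem_coe.2 h1), ?_⟩
      rintro (h2 | h2)
      · exact Set.disjoint_left.1 hDX h2 (Finset.mem_coe.2 h1)
      · exact Finset.disjoint_left.1 hDT h1 ((mem_TU w).1 (Finset.mem_coe.1 h2)).1
    · have h1 := (mem_TN w).1 h1
      refine ⟨hTE (Finset.mem_coe.2 h1.1), ?_⟩
      rintro (h2 | h2)
      · exact Set.disjoint_left.1 hXT h2 (Finset.mem_coe.2 h1.1)
      · exact h1.2 ((mem_TU w).1 (Finset.mem_coe.1 h2)).2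
  have hE' : ((D ∪ TN w T U : Finset ℕ) : Set ℕ) =
      (N.E \ G) \ ((N.E \ G) \ ((D ∪ TN w T U : Finset ℕ) : Set ℕ)) := by
    rw [Set.sdiff_sdiff_right_self]
    exact (Set.inter_eq_right.2 hsub).symm
  refine ⟨(N.E \ G) \ ((D ∪ TN w T U : Finset ℕ) : Set ℕ), ?_, ?_⟩
  · rw [Matroid.delete_ground, Matroid.contract_ground]
    exact hE'
  · rw [side_chf h hfin hTE hT hX1 hQ π hπ hU (D ∪ TN w T U) _ hE' x]
    have h3 : sp K w ((D ∪ TN w T U : Finset ℕ) : Set ℕ) ⊔ U =
        sp K w (D : Set ℕ) ⊔ sp K w (T : Set ℕ) := by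
      have h4 : sp K w ((TN w T U : Finset ℕ) : Set ℕ) ⊔ U = sp K w (T : Set ℕ) := by
        have h5 : sp K w ((TN w T U : Finset ℕ) : Set ℕ) ⊔
            sp K w ((TU w T U : Finset ℕ) : Set ℕ) = sp K w (T : Set ℕ) := by
          rw [← sp_union, ← Finset.coe_union, TU_union_TN]
        rwa [hUeq] at h5
      rw [Finset.coe_union, sp_union, sup_assoc, h4]
    rw [h3]

end one

/-- Sums along full subspaces keep the positivity of all minors. -/
theorem Pos.sum {x : ℝ} (hx : 0 < x) {M M₁ M₂ : Matroid ℕ} (f1 : M₁.Finite) (f2 : M₂.Finite)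
    (p1 : Pos x M₁) (p2 : Pos x M₂) (hs : IsSum M M₁ M₂) : Pos x M := by
  classical
  obtain ⟨K, _, n, v, hM, h1, h2, hME, hL, hT⟩ := hs
  intro X₀ Y hl EN hEN
  -- the contracted set may be taken inside the ground set
  rw [← Matroid.contract_inter_ground_eq] at hl hEN ⊢
  set X : Set ℕ := X₀ ∩ M.E with hX
  have hXE : X ⊆ M.E := Set.inter_subset_right
  have g1 := f1.ground_finite
  have g2 := f2.ground_finite
  have hMf : M.E.Finite := by
    rw [hME]
    exact (g1.union g2).subset Set.sdiff_subset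
  obtain ⟨T, hTF⟩ := (g1.subset (Set.inter_subset_left (s := M₁.E) (t := M₂.E))).exists_finset_coe
  have hT1 : (T : Set ℕ) ⊆ M₁.E := hTF ▸ Set.inter_subset_left
  have hT2 : (T : Set ℕ) ⊆ M₂.E := hTF ▸ Set.inter_subset_right
  have hfull : Full (K := K) v T := by
    intro y hy hy0
    unfold sp at hy
    rw [hTF] at hy
    obtain ⟨t, ht, r, e⟩ := hT y hy hy0
    rw [← hTF] at ht
    exact ⟨t, Finset.mem_coe.1 ht, r, e⟩
  have hL' : sp K v M₁.E ⊓ sp K v M₂.E = sp K v (T : Set ℕ) := by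
    unfold sp
    rw [hTF]
    exact hL
  have hMT : Disjoint M.E (T : Set ℕ) := by
    rw [hME, hTF]
    exact Set.disjoint_sdiff_left
  have hEM : (EN : Set ℕ) = (M.E \ X) \ Y := by
    rw [hEN, Matroid.delete_ground, Matroid.contract_ground]
  have hENM : (EN : Set ℕ) ⊆ M.E := by
    rw [hEM]
    exact fun e he => he.1.1
  set D1 : Finset ℕ := EN.filter (fun e => e ∈ M₁.E) with hD1
  set D2 : Finset ℕ := EN.filter (fun e => e ∈ M₂.E) with hD2
  have hsplit : EN = D1 ∪ D2 := by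
    ext e
    rw [hD1, hD2, Finset.mem_union, Finset.mem_filter, Finset.mem_filter, ← and_or_left]
    refine ⟨fun he => ⟨he, ?_⟩, fun he => he.1⟩
    have h3 := hENM (Finset.mem_coe.2 he)
    rw [hME] at h3
    exact h3.1
  have hd : Disjoint D1 D2 := by
    rw [Finset.disjoint_left]
    intro e he he'
    rw [hD1, Finset.mem_filter] at he
    rw [hD2, Finset.mem_filter] at he'
    have h3 := hENM (Finset.mem_coe.2 he.1)
    rw [hME] at h3
    exact h3.2 ⟨he.2, he'.2⟩
  have dT : Disjoint EN T := by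
    rw [← Finset.disjoint_coe]
    exact Set.disjoint_of_subset_left hENM hMT
  have d1 : Disjoint D1 T := Finset.disjoint_of_subset_left (Finset.filter_subset _ _) dT
  have d2 : Disjoint D2 T := Finset.disjoint_of_subset_left (Finset.filter_subset _ _) dT
  have i1 : (D1 : Set ℕ) ⊆ M₁.E := fun e he => (Finset.mem_filter.1 (Finset.mem_coe.1 he)).2
  have i2 : (D2 : Set ℕ) ⊆ M₂.E := fun e he => (Finset.mem_filter.1 (Finset.mem_coe.1 he)).2
  have hXs : X = (X ∩ M₁.E) ∪ (X ∩ M₂.E) := by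
    rw [← Set.inter_union_distrib_left]
    refine (Set.inter_eq_left.2 ?_).symm
    refine hXE.trans ?_
    rw [hME]
    exact Set.sdiff_subset
  set Z : Submodule K (Fin n → K) := sp K v X with hZ
  have hZs : Z = sp K v (X ∩ M₁.E) ⊔ sp K v (X ∩ M₂.E) := by
    rw [hZ, ← sp_union, ← hXs]
  set π : (Fin n → K) →ₗ[K] ((Fin n → K) ⧸ Z) := Z.mkQ with hπdef
  have hker : LinearMap.ker π = Z := Submodule.ker_mkQ Z
  set w : ℕ → ((Fin n → K) ⧸ Z) := fun e => π (v e) with hw
  -- the value of the minor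
  have hval : chf ((M.contract X).delete Y) EN x = ∑ S ∈ (D1 ∪ D2).powerset,
      (-1 : ℝ) ^ S.card * x ^ (finrank K (sp K w ((D1 ∪ D2 : Finset ℕ) : Set ℕ)) -
        finrank K (sp K w (S : Set ℕ))) := by
    rw [minor_chf v hM hMf X Y hXE EN hEM x, ← hsplit, ← hZ]
    have r1 := finrank_map_ker π (sp K v (EN : Set ℕ))
    rw [← sp_comp, hker] at r1
    refine Finset.sum_congr rfl fun S _ => ?_
    have r2 := finrank_map_ker π (sp K v (S : Set ℕ))
    rw [← sp_comp, hker] at r2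
    congr 2
    change _ = finrank K (sp K (fun e => π (v e)) (EN : Set ℕ)) -
      finrank K (sp K (fun e => π (v e)) (S : Set ℕ))
    omega
  rw [hval]
  -- the two sides
  have q1 : sp K v M₁.E ⊓ sp K v (X ∩ M₂.E) ≤ sp K v (T : Set ℕ) := by
    rw [← hL']
    exact inf_le_inf le_rfl (sp_mono v Set.inter_subset_right)
  have q2 : sp K v M₂.E ⊓ sp K v (X ∩ M₁.E) ≤ sp K v (T : Set ℕ) := by
    rw [← hL', inf_comm]
    exact inf_le_inf (sp_mono v Set.inter_subset_right) le_rfl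
  have k1 : LinearMap.ker π = sp K v (X ∩ M₁.E) ⊔ sp K v (X ∩ M₂.E) := by rw [hker, hZs]
  have k2 : LinearMap.ker π = sp K v (X ∩ M₂.E) ⊔ sp K v (X ∩ M₁.E) := by rw [k1, sup_comm]
  have t1 : Disjoint (X ∩ M₁.E) (T : Set ℕ) :=
    Set.disjoint_of_subset_left (Set.inter_subset_left.trans hXE) hMT
  have t2 : Disjoint (X ∩ M₂.E) (T : Set ℕ) :=
    Set.disjoint_of_subset_left (Set.inter_subset_left.trans hXE) hMT
  have hXD : ∀ e ∈ EN, e ∉ X := by
    intro e he
    have h3 : e ∈ (M.E \ X) \ Y := by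
      rw [← hEM]
      exact Finset.mem_coe.2 he
    exact h3.1.2
  have u1 : Disjoint (X ∩ M₁.E) (D1 : Set ℕ) := by
    rw [Set.disjoint_right]
    intro e he he'
    exact hXD e (Finset.mem_filter.1 (Finset.mem_coe.1 he)).1 he'.1
  have u2 : Disjoint (X ∩ M₂.E) (D2 : Set ℕ) := by
    rw [Set.disjoint_right]
    intro e he he'
    exact hXD e (Finset.mem_filter.1 (Finset.mem_coe.1 he)).1 he'.1
  have hne : ∀ e ∈ EN, w e ≠ 0 := by
    intro e he h3
    have h4 : e ∈ ((M.contract X).delete Y).E := by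
      rw [← hEN]
      exact Finset.mem_coe.2 he
    apply minor_indep_not_mem hM hMf X Y hXE e (hl e h4)
    have h5 : v e ∈ LinearMap.ker π := h3
    rwa [hker] at h5
  have hinter : (sp K w (D1 : Set ℕ) ⊔ sp K w (T : Set ℕ)) ⊓
      (sp K w (D2 : Set ℕ) ⊔ sp K w (T : Set ℕ)) = sp K w (T : Set ℕ) := by
    apply le_antisymm
    · rintro y ⟨hy1, hy2⟩
      have m1 : sp K w (D1 : Set ℕ) ⊔ sp K w (T : Set ℕ) ≤ (sp K v M₁.E).map π := by
        rw [hw, ← sp_comp]
        exact sup_le (sp_mono _ i1) (sp_mono _ hT1)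
      have m2 : sp K w (D2 : Set ℕ) ⊔ sp K w (T : Set ℕ) ≤ (sp K v M₂.E).map π := by
        rw [hw, ← sp_comp]
        exact sup_le (sp_mono _ i2) (sp_mono _ hT2)
      obtain ⟨a, ha, ea⟩ := m1 hy1
      obtain ⟨b, hb, eb⟩ := m2 hy2
      have hab : a - b ∈ LinearMap.ker π := by
        rw [LinearMap.mem_ker, map_sub, ea, eb, sub_self]
      rw [k1] at hab
      obtain ⟨z1, hz1, z2, hz2, ez⟩ := mem_sup.1 hab
      have hz1' : z1 ∈ sp K v M₁.E := sp_mono v Set.inter_subset_right hz1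
      have hz2' : z2 ∈ sp K v M₂.E := sp_mono v Set.inter_subset_right hz2
      have e1 : a - z1 = b + z2 := by
        have : a = b + (z1 + z2) := by rw [ez]; abel
        rw [this]
        abel
      have e2 : a - z1 ∈ sp K v (T : Set ℕ) := by
        rw [← hL']
        refine ⟨sub_mem ha hz1', ?_⟩
        rw [e1]
        exact add_mem hb hz2'
      have e3 : π z1 = 0 := by
        have h3 : z1 ∈ LinearMap.ker π := by
          rw [k1]
          exact mem_sup_left hz1
        exact h3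
      have e4 : y = π (a - z1) := by rw [map_sub, e3, sub_zero, ea]
      rw [e4, hw, sp_comp]
      exact ⟨_, e2, rfl⟩
    · exact le_inf le_sup_right le_sup_right
  have hfull' : Full (K := K) w T := hfull.map π
  refine gsum w hfull' D1 D2 hd d1 d2 hinter x hx ?_ ?_ ?_
  · intro U hU
    exact side_W h1 g1 hT1 hfull Set.inter_subset_right t1 q1 π k1 hU p1
  · rintro D (rfl | rfl) U hU
    · obtain ⟨B, b1, b2⟩ := side_eq h1 g1 hT1 hfull Set.inter_subset_right t1 q1 π k1 hU D1 i1 u1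
        d1 x
      rw [← b2]
      exact p1.nonneg _ _ _ b1
    · obtain ⟨B, b1, b2⟩ := side_eq h2 g2 hT2 hfull Set.inter_subset_right t2 q2 π k2 hU D2 i2 u2
        d2 x
      rw [← b2]
      exact p2.nonneg _ _ _ b1
  · have hin : ∀ D : Finset ℕ, D ⊆ EN → ∀ e ∈ D ∪ TN w T (⊥ : Submodule K ((Fin n → K) ⧸ Z)),
        w e ∉ (⊥ : Submodule K ((Fin n → K) ⧸ Z)) := by
      intro D hD e he
      rcases Finset.mem_union.1 he with h3 | h3
      · rw [mem_bot]
        exact hne e (hD h3)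
      · exact ((mem_TN w).1 h3).2
    rintro D (rfl | rfl)
    · obtain ⟨B, b1, b2⟩ := side_eq h1 g1 hT1 hfull Set.inter_subset_right t1 q1 π k1
        (U := ⊥) bot_le D1 i1 u1 d1 x
      rw [← b2]
      refine p1 _ _ ?_ _ b1
      intro e he
      refine side_indep h1 g1 hT1 hfull Set.inter_subset_right π k1 bot_le B e ?_ ?_
      · rw [Matroid.delete_ground, Matroid.contract_ground] at he
        exact he
      · rw [← b1] at he
        exact hin D1 (Finset.filter_subset _ _) e (Finset.mem_coe.1 he)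
    · obtain ⟨B, b1, b2⟩ := side_eq h2 g2 hT2 hfull Set.inter_subset_right t2 q2 π k2
        (U := ⊥) bot_le D2 i2 u2 d2 x
      rw [← b2]
      refine p2 _ _ ?_ _ b1
      intro e he
      refine side_indep h2 g2 hT2 hfull Set.inter_subset_right π k2 bot_le B e ?_ ?_
      · rw [Matroid.delete_ground, Matroid.contract_ground] at he
        exact he
      · rw [← b1] at he
        exact hin D2 (Finset.filter_subset _ _) e (Finset.mem_coe.1 he)

end matroids

end GS

end Pool.Agent.Lib.MP_4a8162_co
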